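import Pool.Agent.Helper73.Dil.Pure

open Topology Set Filter MeasureTheory Metric

namespace Pool.Agent.Helper61.DilAbs

open Pool.Agent.Helper73.Dil

section
variable {H : Type*} [NormedAddCommGroup H] [InnerProductSpace ℂ H]

lemma J_sub (J : Conj H) (f g : H) : J.c (f - g) = J.c f - J.c g := by
  have : f - g = f + (-1 : ℂ) • g := by simp [sub_eq_add_neg]
  rw [this, J.add, J.smul]; simp [sub_eq_add_neg]

lemma Om_sub_left (J : Conj H) (a b e : H × H) : Om J (a - b) e = Om J a e - Om J b e := by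
  simp only [Om, Prod.fst_sub, Prod.snd_sub, J_sub, inner_sub_left]; ring

lemma real_diff (J : Conj H) (t : ℂ) (c c' : H) :
    (c + J.c c, t • c + J.c (t • c)) - (c' + J.c c', t • c' + J.c (t • c')) =
    ((c - c') + J.c (c - c'), t • (c - c') + J.c (t • (c - c'))) := by
  ext
  · simp only [Prod.fst_sub, J_sub]; abel
  · simp only [Prod.snd_sub, J_sub, smul_sub]; abel

end

universe u

theorem st_ABSU : ST_ABSU.{u} := by
  intro H _ _ _ A t c c' ht hc hc'
  have ht' : 0 < t.im := ht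
  set d := c - c' with hd
  have h1 : ((1 / 2 : ℂ) • (d + A.J.c d, t • d + A.J.c (t • d))) ∈ A.E := by
    have := A.E.sub_mem hc.2 hc'.2
    have e : ((1 / 2 : ℂ) • (c + A.J.c c, t • c + A.J.c (t • c)) - A.v) -
      ((1 / 2 : ℂ) • (c' + A.J.c c', t • c' + A.J.c (t • c')) - A.v) =
      ((1 / 2 : ℂ) • (d + A.J.c d, t • d + A.J.c (t • d))) := by
      rw [hd, ← real_diff, smul_sub]; abel
    rwa [e] at this
  have h2 : ((d + A.J.c d, t • d + A.J.c (t • d)) : H × H) ∈ A.E := by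
    have := A.E.smul_mem (2 : ℂ) h1
    rw [smul_smul] at this
    simpa using this
  have h3 : Om A.J (d, t • d) (d + A.J.c d, t • d + A.J.c (t • d)) = 0 := by
    have e : ((d, t • d) : H × H) = (c, t • c) - (c', t • c') := by
      ext <;> simp [hd, smul_sub]
    rw [e, Om_sub_left, hc.1 _ h2, hc'.1 _ h2, sub_zero]
  simp only [Om, A.J.smul, inner_add_right, inner_smul_right, inner_smul_left, Complex.conj_conj,
    A.J.inner] at h3
  have h4 : (starRingEnd ℂ) t * inner ℂ d d - t * inner ℂ d d = 0 := by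
    linear_combination h3
  have h5 : ((starRingEnd ℂ) t - t) * inner ℂ d d = 0 := by linear_combination h4
  have h6 : (starRingEnd ℂ) t - t ≠ 0 := by
    intro h
    have := congrArg Complex.im h
    simp at this
    linarith
  have h7 : inner ℂ d d = 0 := (mul_eq_zero.mp h5).resolve_left h6
  have h8 : d = 0 := inner_self_eq_zero.mp h7
  exact sub_eq_zero.mp h8

section
variable {H : Type*} [NormedAddCommGroup H] [InnerProductSpace ℂ H]

lemma det_eq (g : G) : g.1 0 0 * g.1 1 1 - g.1 0 1 * g.1 1 0 = 1 := by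
  have := g.2; rw [Matrix.det_fin_two] at this; exact this

/-- the denominator of `tau` -/
noncomputable def den (g : G) : ℂ := (g.1 0 0 : ℂ) + Complex.I * g.1 1 0

lemma normSq_den (g : G) : Complex.normSq (den g) = g.1 0 0 ^ 2 + g.1 1 0 ^ 2 := by
  simp [den, Complex.normSq_apply]; ring

lemma den_ne (g : G) : den g ≠ 0 := by
  intro h
  have h1 := normSq_den g
  rw [h, map_zero] at h1
  have h2 : g.1 0 0 = 0 := by nlinarith [sq_nonneg (g.1 0 0), sq_nonneg (g.1 1 0)]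
  have h3 : g.1 1 0 = 0 := by nlinarith [sq_nonneg (g.1 0 0), sq_nonneg (g.1 1 0)]
  have := det_eq g
  rw [h2, h3] at this
  simp at this

lemma tau_im (g : G) : (tau g).im = 1 / Complex.normSq (den g) := by
  have hd := det_eq g
  have hn : Complex.normSq (den g) ≠ 0 := fun h => den_ne g (Complex.normSq_eq_zero.mp h)
  unfold tau
  change (((g.1 0 1 : ℂ) + Complex.I * g.1 1 1) / den g).im = _
  rw [Complex.div_im]
  have e1 : (den g).re = g.1 0 0 := by simp [den]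
  have e2 : (den g).im = g.1 1 0 := by simp [den]
  rw [e1, e2]
  simp
  field_simp
  linear_combination hd

lemma tau_mem (g : G) : tau g ∈ UH := by
  change 0 < (tau g).im
  rw [tau_im]
  have : 0 < Complex.normSq (den g) := Complex.normSq_pos.mpr (den_ne g)
  positivity

lemma tau_mul (g γ : G) : tau (g * γ) =
    ((γ.1 0 1 : ℂ) + tau g * γ.1 1 1) / ((γ.1 0 0 : ℂ) + tau g * γ.1 1 0) := by
  have hd := den_ne g
  have ht : tau g * den g = (g.1 0 1 : ℂ) + Complex.I * g.1 1 1 := div_mul_cancel₀ _ hd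
  have hd' := den_ne (g * γ)
  have e1 : den (g * γ) = den g * ((γ.1 0 0 : ℂ) + tau g * γ.1 1 0) := by
    rw [mul_add, ← mul_assoc, mul_comm (den g) (tau g), ht]
    simp only [den, Matrix.SpecialLinearGroup.coe_mul, Matrix.mul_apply, Fin.sum_univ_two]
    push_cast; ring
  have e2 : (((g * γ).1 0 1 : ℂ) + Complex.I * (g * γ).1 1 1) =
      den g * ((γ.1 0 1 : ℂ) + tau g * γ.1 1 1) := by
    rw [mul_add, ← mul_assoc, mul_comm (den g) (tau g), ht]
    simp only [den, Matrix.SpecialLinearGroup.coe_mul, Matrix.mul_apply, Fin.sum_univ_two]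
    push_cast; ring
  have : tau (g * γ) = (((g * γ).1 0 1 : ℂ) + Complex.I * (g * γ).1 1 1) / den (g * γ) := rfl
  rw [this, e1, e2, mul_div_mul_left _ _ hd]

lemma q_ne (g γ : G) : ((γ.1 0 0 : ℂ) + tau g * γ.1 1 0) ≠ 0 := by
  intro h
  have ht : 0 < (tau g).im := tau_mem g
  have h1 := congrArg Complex.im h
  simp at h1
  rcases h1 with h1 | h1
  · linarith
  have h2 := congrArg Complex.re h
  simp [h1] at h2
  have := det_eq γ
  rw [h1, h2] at this
  simp at this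

lemma Qf_expand (t : ℂ) (ht : t.im ≠ 0) (α : H × H) :
    Qf t α = (‖α.2‖ ^ 2 - 2 * t.re * (inner ℂ α.1 α.2).re + (t.re ^ 2 + t.im ^ 2) * ‖α.1‖ ^ 2) / t.im := by
  unfold Qf
  have h : ‖α.2 - (t.re : ℂ) • α.1‖ ^ 2 = ‖α.2‖ ^ 2 - 2 * t.re * (inner ℂ α.1 α.2).re
      + t.re ^ 2 * ‖α.1‖ ^ 2 := by
    rw [@norm_sub_sq ℂ, inner_smul_right, norm_smul]
    have e1 : (inner ℂ α.2 α.1).re = (inner ℂ α.1 α.2).re := by
      rw [← inner_conj_symm, Complex.conj_re]
    simp [mul_pow, e1]; ring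
  rw [h]
  field_simp
  ring

lemma norm_comb (x y : ℝ) (f g : H) :
    ‖(x : ℂ) • f + (y : ℂ) • g‖ ^ 2 = x ^ 2 * ‖f‖ ^ 2 + 2 * x * y * (inner ℂ f g).re + y ^ 2 * ‖g‖ ^ 2 := by
  rw [@norm_add_sq ℂ, norm_smul, norm_smul, inner_smul_left, inner_smul_right]
  simp [mul_pow]; ring

lemma inner_comb (x y z w : ℝ) (f g : H) :
    (inner ℂ ((x : ℂ) • f + (y : ℂ) • g) ((z : ℂ) • f + (w : ℂ) • g)).re =
      x * z * ‖f‖ ^ 2 + (x * w + y * z) * (inner ℂ f g).re + y * w * ‖g‖ ^ 2 := by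
  rw [inner_add_left, inner_add_right, inner_add_right]
  simp only [inner_smul_left, inner_smul_right, Complex.conj_ofReal]
  have e1 : (inner ℂ g f).re = (inner ℂ f g).re := by
    rw [← inner_conj_symm, Complex.conj_re]
  have e2 : (((‖f‖ : ℂ)) ^ 2).re = ‖f‖ ^ 2 := by
    rw [← Complex.ofReal_pow, Complex.ofReal_re]
  have e3 : (((‖g‖ : ℂ)) ^ 2).re = ‖g‖ ^ 2 := by
    rw [← Complex.ofReal_pow, Complex.ofReal_re]
  simp [e1, e2, e3]; ring

lemma Qf_pull (T : H ≃ₗᵢ[ℂ] H) (g γ : G) (α : H × H) :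
    Qf (tau (g * γ)) (pull T γ α) = Qf (tau g) α := by
  have ht : 0 < (tau g).im := tau_mem g
  have ht' : 0 < (tau (g * γ)).im := tau_mem (g * γ)
  rw [Qf_expand _ ht'.ne', Qf_expand _ ht.ne']
  have hq := q_ne g γ
  have hm := tau_mul g γ
  set t := tau g
  set t' := tau (g * γ)
  set q : ℂ := ((γ.1 0 0 : ℂ) + t * γ.1 1 0) with hqd
  have hqn : 0 < Complex.normSq q := Complex.normSq_pos.mpr hq
  have hN : Complex.normSq q = (γ.1 0 0 + t.re * γ.1 1 0) ^ 2 + (t.im * γ.1 1 0) ^ 2 := by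
    rw [Complex.normSq_apply, hqd]; simp; ring
  have hdet := det_eq γ
  have him : t'.im * Complex.normSq q = t.im := by
    rw [hm, Complex.div_im]
    have hqn' := hqn.ne'
    field_simp
    rw [hqd]
    simp
    linear_combination t.im * hdet
  have hre : t'.re * Complex.normSq q = (γ.1 0 1 + t.re * γ.1 1 1) * (γ.1 0 0 + t.re * γ.1 1 0)
      + t.im ^ 2 * γ.1 1 1 * γ.1 1 0 := by
    rw [hm, Complex.div_re]
    have hqn' := hqn.ne'
    field_simp
    rw [hqd]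
    simp
    ring
  have hab : (t'.re ^ 2 + t'.im ^ 2) * Complex.normSq q = (γ.1 0 1 + t.re * γ.1 1 1) ^ 2
      + (t.im * γ.1 1 1) ^ 2 := by
    have e : t' * q = (γ.1 0 1 : ℂ) + t * γ.1 1 1 := by rw [hm, div_mul_cancel₀ _ hq]
    have e2 := congrArg Complex.normSq e
    rw [Complex.normSq_mul, Complex.normSq_apply, Complex.normSq_apply ((γ.1 0 1 : ℂ) + t * γ.1 1 1)] at e2
    simp at e2
    linear_combination e2
  rw [div_eq_div_iff ht'.ne' ht.ne']
  simp only [pull]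
  rw [norm_comb, norm_comb, inner_comb, T.norm_map, T.norm_map, T.inner_map_map]
  set A1 := ‖α.1‖ ^ 2
  set B1 := ‖α.2‖ ^ 2
  set M := (inner ℂ α.1 α.2).re
  have key : ((γ.1 0 1 ^ 2 * A1 + 2 * γ.1 0 1 * γ.1 1 1 * M + γ.1 1 1 ^ 2 * B1) -
      2 * t'.re * (γ.1 0 0 * γ.1 0 1 * A1 + (γ.1 0 0 * γ.1 1 1 + γ.1 1 0 * γ.1 0 1) * M
        + γ.1 1 0 * γ.1 1 1 * B1) +
      (t'.re ^ 2 + t'.im ^ 2) * (γ.1 0 0 ^ 2 * A1 + 2 * γ.1 0 0 * γ.1 1 0 * M
        + γ.1 1 0 ^ 2 * B1)) * Complex.normSq q =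
      (B1 - 2 * t.re * M + (t.re ^ 2 + t.im ^ 2) * A1) := by
    have : (B1 - 2 * t.re * M + (t.re ^ 2 + t.im ^ 2) * A1) =
       (B1 - 2 * t.re * M + (t.re ^ 2 + t.im ^ 2) * A1) *
        (γ.1 0 0 * γ.1 1 1 - γ.1 0 1 * γ.1 1 0) ^ 2 := by rw [hdet]; ring
    rw [this, add_mul, sub_mul, mul_right_comm (2 * t'.re), mul_assoc 2 t'.re, hre,
      mul_right_comm (t'.re ^ 2 + t'.im ^ 2), hab, hN]
    ring
  have h3 : t.im = t'.im * Complex.normSq q := him.symm
  rw [← key]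
  rw [h3]
  ring


lemma pull_add (T : H ≃ₗᵢ[ℂ] H) (γ : G) (α β : H × H) :
    pull T γ (α + β) = pull T γ α + pull T γ β := by
  ext <;> simp [pull, smul_add] <;> abel

lemma pull_smul (T : H ≃ₗᵢ[ℂ] H) (γ : G) (z : ℂ) (α : H × H) :
    pull T γ (z • α) = z • pull T γ α := by
  ext <;> simp only [pull, Prod.smul_fst, Prod.smul_snd, map_smul, smul_add, smul_smul] <;>
    simp only [mul_comm]

lemma pull_sub (T : H ≃ₗᵢ[ℂ] H) (γ : G) (α β : H × H) :
    pull T γ (α - β) = pull T γ α - pull T γ β := by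
  ext <;> simp [pull, smul_sub] <;> abel

lemma pull_surj (T : H ≃ₗᵢ[ℂ] H) (γ : G) (β : H × H) : ∃ α, pull T γ α = β := by
  have hd := det_eq γ
  have hdc : (γ.1 0 0 : ℂ) * γ.1 1 1 - γ.1 0 1 * γ.1 1 0 = 1 := by exact_mod_cast hd
  refine ⟨(T.symm ((γ.1 1 1 : ℂ) • β.1 - (γ.1 1 0 : ℂ) • β.2),
    T.symm ((γ.1 0 0 : ℂ) • β.2 - (γ.1 0 1 : ℂ) • β.1)), ?_⟩
  ext
  · simp only [pull, LinearIsometryEquiv.apply_symm_apply, smul_sub, smul_smul]
    have : β.1 = ((γ.1 0 0 : ℂ) * γ.1 1 1 - γ.1 0 1 * γ.1 1 0) • β.1 := by rw [hdc, one_smul]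
    conv_rhs => rw [this, sub_smul]
    rw [mul_comm (γ.1 1 0 : ℂ) (γ.1 0 0 : ℂ), mul_comm (γ.1 1 0 : ℂ) (γ.1 0 1 : ℂ)]
    abel
  · simp only [pull, LinearIsometryEquiv.apply_symm_apply, smul_sub, smul_smul]
    have : β.2 = ((γ.1 0 0 : ℂ) * γ.1 1 1 - γ.1 0 1 * γ.1 1 0) • β.2 := by rw [hdc, one_smul]
    conv_rhs => rw [this, sub_smul]
    rw [mul_comm (γ.1 1 1 : ℂ) (γ.1 0 0 : ℂ), mul_comm (γ.1 1 1 : ℂ) (γ.1 0 1 : ℂ)]
    abel

lemma Om_pull (J : Conj H) (T : H ≃ₗᵢ[ℂ] H) (γ : G) (hT : ∀ f, T (J.c f) = J.c (T f))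
    (α β : H × H) : Om J (pull T γ α) (pull T γ β) = Om J α β := by
  have hd := det_eq γ
  have hdc : (γ.1 0 0 : ℂ) * γ.1 1 1 - γ.1 0 1 * γ.1 1 0 = 1 := by exact_mod_cast hd
  simp only [Om, pull, J.add, J.smul, Complex.conj_ofReal, ← hT, inner_add_left, inner_add_right,
    inner_smul_left, inner_smul_right, T.inner_map_map]
  linear_combination (inner ℂ (J.c α.1) β.2 - inner ℂ (J.c α.2) β.1) * hdc

lemma pull_conj (J : Conj H) (T : H ≃ₗᵢ[ℂ] H) (γ : G) (hT : ∀ f, T (J.c f) = J.c (T f))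
    (α : H × H) : pull T γ (J.c α.1, J.c α.2) = (J.c (pull T γ α).1, J.c (pull T γ α).2) := by
  ext <;> simp only [pull, J.add, J.smul, Complex.conj_ofReal, ← hT]

lemma pull_real (J : Conj H) (T : H ≃ₗᵢ[ℂ] H) (γ : G) (hT : ∀ f, T (J.c f) = J.c (T f))
    (α : H × H) : pull T γ (α.1 + J.c α.1, α.2 + J.c α.2) =
      ((pull T γ α).1 + J.c (pull T γ α).1, (pull T γ α).2 + J.c (pull T γ α).2) := by
  have h := pull_conj J T γ hT α
  have e : ((α.1 + J.c α.1, α.2 + J.c α.2) : H × H) = α + (J.c α.1, J.c α.2) := by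
    ext <;> simp
  rw [e, pull_add, h]
  ext <;> simp

lemma pull_holo (T : H ≃ₗᵢ[ℂ] H) (g γ : G) (c : H) :
    pull T γ (c, tau g • c) = (((γ.1 0 0 : ℂ) + tau g * γ.1 1 0) • T c,
      tau (g * γ) • (((γ.1 0 0 : ℂ) + tau g * γ.1 1 0) • T c)) := by
  have hq := q_ne g γ
  have hm := tau_mul g γ
  ext
  · simp only [pull, map_smul, smul_smul, add_smul]
    rw [mul_comm (tau g)]
  · simp only [pull, map_smul, smul_smul]
    rw [hm, div_mul_cancel₀ _ hq, add_smul, mul_comm (tau g)]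

end

theorem st_ABSEQ : ST_ABSEQ.{u} := by
  intro H _ _ _ A T γ hT hE hv g
  constructor
  · unfold En
    have hmem : ∀ ε : A.E, (pull T γ A.v - A.v) + pull T γ ε.1 ∈ A.E := fun ε =>
      A.E.add_mem hv ((hE _).mp ε.2)
    let φ : A.E → A.E := fun ε => ⟨(pull T γ A.v - A.v) + pull T γ ε.1, hmem ε⟩
    have hφ : Function.Surjective φ := by
      intro ε
      obtain ⟨α, hα⟩ := pull_surj T γ (ε.1 - (pull T γ A.v - A.v))
      have hαE : α ∈ A.E := by
        rw [hE, hα]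
        exact A.E.sub_mem ε.2 hv
      refine ⟨⟨α, hαE⟩, ?_⟩
      apply Subtype.ext
      simp only [φ, hα]
      abel
    symm
    refine hφ.iInf_congr _ ?_
    intro ε
    have : A.v + (φ ε).1 = pull T γ (A.v + ε.1) := by
      rw [pull_add]; simp only [φ]; abel
    rw [this, Qf_pull]
  · intro c c' hc hc'
    have hrep : IsRep A (tau (g * γ)) (((γ.1 0 0 : ℂ) + tau g * γ.1 1 0) • T c) := by
      constructor
      · intro ε hε
        obtain ⟨α, hα⟩ := pull_surj T γ ε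
        have hαE : α ∈ A.E := by rw [hE, hα]; exact hε
        rw [← pull_holo, ← hα, Om_pull A.J T γ hT]
        exact hc.1 _ hαE
      · have h := pull_real A.J T γ hT (c, tau g • c)
        rw [pull_holo] at h
        simp only at h
        rw [← h, ← pull_smul]
        have e : pull T γ ((1 / 2 : ℂ) • (c + A.J.c c, tau g • c + A.J.c (tau g • c))) - A.v =
          pull T γ ((1 / 2 : ℂ) • (c + A.J.c c, tau g • c + A.J.c (tau g • c)) - A.v) +
            (pull T γ A.v - A.v) := by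
          rw [pull_sub]; abel
        rw [e]
        exact A.E.add_mem ((hE _).mp hc.2) hv
    have := st_ABSU H A (tau (g * γ)) c' _ (tau_mem _) hc' hrep
    rw [this, pull_holo]

end Pool.Agent.Helper61.DilAbs
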