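import Pool.Agent.Helper73.Dil.Pure

open Topology Set Filter MeasureTheory Metric

namespace Pool.Agent.Helper61.DilCone

open Pool.Agent.Helper73.Dil

/-- the unit complex number `(conj w / |w|)^k` -/
noncomputable def uu (k : ℕ) (w : ℂ) : ℂ := ((starRingEnd ℂ) w / (‖w‖ : ℂ)) ^ k

noncomputable def mm (k : ℕ) (a b w : ℂ) : ℂ := a + b * uu k w

noncomputable def Ph (k : ℕ) (a b w : ℂ) : ℂ := w * (mm k a b w) ^ (2 / (k : ℂ))

lemma norm_uu (k : ℕ) {w : ℂ} (hw : w ≠ 0) : ‖uu k w‖ = 1 := by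
  have h : ‖w‖ ≠ 0 := norm_ne_zero_iff.mpr hw
  simp [uu, norm_pow, h]

lemma mem_slit {a b u : ℂ} (ha : 0 < a.re) (hab : ‖b‖ < ‖a‖) (hu : ‖u‖ ≤ 1) :
    a + b * u ∈ Complex.slitPlane := by
  rw [Complex.mem_slitPlane_iff]
  by_contra hcon
  push Not at hcon
  obtain ⟨h1, h2⟩ := hcon
  set s : ℝ := -(a + b * u).re with hs
  have hs0 : 0 ≤ s := by rw [hs]; linarith
  have hm : a + b * u = -(s : ℂ) := by
    apply Complex.ext
    · simp [hs]
    · simpa using h2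
  have h3 : b * u = -(a + s) := by
    have : b * u = (a + b * u) - a := by ring
    rw [this, hm]; ring
  have h4 : ‖b * u‖ = ‖a + s‖ := by rw [h3, norm_neg]
  have h5 : ‖b * u‖ ≤ ‖b‖ := by
    rw [norm_mul]
    exact mul_le_of_le_one_right (norm_nonneg _) hu
  have h6 : ‖a‖ ≤ ‖a + s‖ := by
    have e1 : ‖a‖ ^ 2 = a.re ^ 2 + a.im ^ 2 := by
      rw [← Complex.normSq_eq_norm_sq, Complex.normSq_apply]; ring
    have e2 : ‖a + s‖ ^ 2 = (a.re + s) ^ 2 + a.im ^ 2 := by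
      rw [← Complex.normSq_eq_norm_sq, Complex.normSq_apply]; simp; ring
    have : ‖a‖ ^ 2 ≤ ‖a + s‖ ^ 2 := by
      rw [e1, e2]; nlinarith
    exact le_of_sq_le_sq this (norm_nonneg _)
  linarith


lemma mm_slit {k : ℕ} {a b : ℂ} (ha : 0 < a.re) (hab : ‖b‖ < ‖a‖) {w : ℂ} (hw : w ≠ 0) :
    mm k a b w ∈ Complex.slitPlane :=
  mem_slit ha hab (norm_uu k hw).le

lemma pow_cpow {k : ℕ} (hk : 1 ≤ k) (m : ℂ) : (m ^ (2 / (k : ℂ))) ^ k = m ^ 2 := by
  have hk0 : (k : ℂ) ≠ 0 := by exact_mod_cast (by omega : k ≠ 0)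
  rw [← Complex.cpow_mul_nat]
  rw [div_mul_cancel₀ _ hk0]
  exact Complex.cpow_ofNat m 2

lemma Ph_pow {k : ℕ} (hk : 1 ≤ k) (a b w : ℂ) : (Ph k a b w) ^ k = w ^ k * (mm k a b w) ^ 2 := by
  rw [Ph, mul_pow, pow_cpow hk]

lemma Ph_zero (k : ℕ) (a b : ℂ) : Ph k a b 0 = 0 := by simp [Ph]

lemma Ph_ne {k : ℕ} {a b : ℂ} (ha : 0 < a.re) (hab : ‖b‖ < ‖a‖) {w : ℂ} (hw : w ≠ 0) :
    Ph k a b w ≠ 0 := by
  rw [Ph]
  refine mul_ne_zero hw ?_
  rw [Complex.cpow_def_of_ne_zero (Complex.slitPlane_ne_zero (mm_slit ha hab hw))]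
  exact Complex.exp_ne_zero _

lemma uu_mul (k : ℕ) {w : ℂ} : uu k w * w ^ k = (‖w‖ : ℂ) ^ k := by
  rcases eq_or_ne w 0 with rfl | hw
  · simp [uu, ← mul_pow]
  rw [uu, ← mul_pow]
  congr 1
  have h : (‖w‖ : ℂ) ≠ 0 := by exact_mod_cast norm_ne_zero_iff.mpr hw
  field_simp
  rw [mul_comm, Complex.mul_conj]
  rw [Complex.normSq_eq_norm_sq]
  push_cast; ring

lemma uu_eq (k : ℕ) {w : ℂ} (hw : w ≠ 0) : uu k w = (‖w‖ : ℂ) ^ k / w ^ k := by
  rw [eq_div_iff (pow_ne_zero _ hw), uu_mul]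

lemma uu_Ph {k : ℕ} (hk : 1 ≤ k) {a b : ℂ} (ha : 0 < a.re) (hab : ‖b‖ < ‖a‖) {w : ℂ}
    (hw : w ≠ 0) :
    uu k (Ph k a b w) = uu k w * ((starRingEnd ℂ) (mm k a b w) / mm k a b w) := by
  have hm := Complex.slitPlane_ne_zero (mm_slit (k := k) ha hab hw)
  have e : ((‖Ph k a b w‖ : ℝ) : ℂ) ^ k = (‖w‖ : ℂ) ^ k * ((starRingEnd ℂ) (mm k a b w) * mm k a b w) := by
    have : ‖Ph k a b w‖ ^ k = ‖w‖ ^ k * ‖mm k a b w‖ ^ 2 := by
      rw [← norm_pow, Ph_pow hk, norm_mul, norm_pow, norm_pow]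
    have h2 : ((‖Ph k a b w‖ ^ k : ℝ) : ℂ) = ((‖w‖ ^ k * ‖mm k a b w‖ ^ 2 : ℝ) : ℂ) := by rw [this]
    push_cast at h2
    rw [h2, mul_comm ((starRingEnd ℂ) (mm k a b w)), Complex.mul_conj, Complex.normSq_eq_norm_sq]
    push_cast; ring
  rw [uu_eq k (Ph_ne ha hab hw), uu_eq k hw, e, Ph_pow hk]
  have hwk : w ^ k ≠ 0 := pow_ne_zero _ hw
  field_simp

lemma inv_main {k : ℕ} (hk : 1 ≤ k) {a b : ℂ} (ha : 0 < a.re) (hab : ‖b‖ < ‖a‖) {D : ℝ}
    (hD : D = ‖a‖ ^ 2 - ‖b‖ ^ 2) (w : ℂ) :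
    Ph k ((starRingEnd ℂ) a / D) (-b / D) (Ph k a b w) = w := by
  rcases eq_or_ne w 0 with rfl | hw
  · simp [Ph_zero]
  have hD0 : 0 < D := by
    rw [hD]
    have := norm_nonneg b
    nlinarith
  have hDc : (D : ℂ) ≠ 0 := by exact_mod_cast hD0.ne'
  have hsl := mm_slit (k := k) ha hab hw
  have hm := Complex.slitPlane_ne_zero hsl
  set m := mm k a b w with hmdef
  have hu := norm_uu k hw
  have huc : uu k w * (starRingEnd ℂ) (uu k w) = 1 := by
    rw [Complex.mul_conj, Complex.normSq_eq_norm_sq, hu]; simp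
  have key : mm k ((starRingEnd ℂ) a / D) (-b / D) (Ph k a b w) = m⁻¹ := by
    rw [mm, uu_Ph hk ha hab hw, ← hmdef]
    have hDe : (D : ℂ) = a * (starRingEnd ℂ) a - b * (starRingEnd ℂ) b := by
      rw [hD, Complex.mul_conj, Complex.mul_conj, Complex.normSq_eq_norm_sq,
        Complex.normSq_eq_norm_sq]; push_cast; ring
    have hmc : (starRingEnd ℂ) m = (starRingEnd ℂ) a + (starRingEnd ℂ) b * (starRingEnd ℂ) (uu k w) := by
      rw [hmdef, mm]; simp
    have hme : m = a + b * uu k w := rfl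
    apply eq_inv_of_mul_eq_one_left
    field_simp
    rw [hmc, hDe]
    have : (starRingEnd ℂ) a * m = (starRingEnd ℂ) a * (a + b * uu k w) := by rw [← hme]
    linear_combination this - b * (starRingEnd ℂ) b * huc
  rw [Ph, key, Ph, ← hmdef, Complex.inv_cpow _ _ (Complex.slitPlane_arg_ne_pi hsl)]
  have : m ^ (2 / (k : ℂ)) ≠ 0 := by
    rw [Complex.cpow_def_of_ne_zero hm]; exact Complex.exp_ne_zero _
  rw [mul_assoc, mul_inv_cancel₀ this, mul_one]


lemma continuousOn_uu (k : ℕ) : ContinuousOn (uu k) {0}ᶜ := by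
  unfold uu
  apply ContinuousOn.pow
  apply ContinuousOn.div
  · exact Complex.continuous_conj.continuousOn
  · exact (Complex.continuous_ofReal.comp continuous_norm).continuousOn
  · intro x hx
    have : ‖x‖ ≠ 0 := norm_ne_zero_iff.mpr hx
    exact_mod_cast this

lemma continuous_Ph {k : ℕ} (hk : 1 ≤ k) {a b : ℂ} (ha : 0 < a.re) (hab : ‖b‖ < ‖a‖) :
    Continuous (Ph k a b) := by
  rw [continuous_iff_continuousAt]
  intro w
  rcases eq_or_ne w 0 with rfl | hw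
  · -- at the origin
    rw [ContinuousAt, Ph_zero]
    rw [tendsto_zero_iff_norm_tendsto_zero]
    have hb : ∀ w : ℂ, ‖Ph k a b w‖ ≤ ‖w‖ * ((‖a‖ + ‖b‖) ^ (2 / (k : ℝ))) := by
      intro w
      rcases eq_or_ne w 0 with rfl | hw
      · simp [Ph_zero]
      rw [Ph, norm_mul]
      refine mul_le_mul_of_nonneg_left ?_ (norm_nonneg _)
      have hm := Complex.slitPlane_ne_zero (mm_slit (k := k) ha hab hw)
      have e : (2 / (k : ℂ)) = ((2 / (k : ℝ) : ℝ) : ℂ) := by push_cast; ring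
      rw [e, Complex.norm_cpow_real]
      refine Real.rpow_le_rpow (norm_nonneg _) ?_ (by positivity)
      calc ‖mm k a b w‖ ≤ ‖a‖ + ‖b * uu k w‖ := norm_add_le _ _
        _ = ‖a‖ + ‖b‖ := by rw [norm_mul, norm_uu k hw, mul_one]
    refine squeeze_zero (fun _ => norm_nonneg _) hb ?_
    have : Tendsto (fun w : ℂ => ‖w‖ * ((‖a‖ + ‖b‖) ^ (2 / (k : ℝ)))) (𝓝 0)
        (𝓝 (‖(0 : ℂ)‖ * ((‖a‖ + ‖b‖) ^ (2 / (k : ℝ))))) :=
      (continuous_norm.mul continuous_const).tendsto _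
    simpa using this
  · have h1 : ContinuousAt (uu k) w := (continuousOn_uu k).continuousAt (isOpen_compl_singleton.mem_nhds hw)
    have h2 : ContinuousAt (mm k a b) w := continuousAt_const.add (continuousAt_const.mul h1)
    unfold Ph
    exact continuousAt_id.mul (h2.cpow continuousAt_const (mm_slit ha hab hw))

/-- the homeomorphism -/
noncomputable def PhHomeo {k : ℕ} (hk : 1 ≤ k) (a b : ℂ) (ha : 0 < a.re) (hab : ‖b‖ < ‖a‖) :
    ℂ ≃ₜ ℂ := by
  have hD0 : 0 < ‖a‖ ^ 2 - ‖b‖ ^ 2 := by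
    have := norm_nonneg b
    nlinarith
  set D : ℝ := ‖a‖ ^ 2 - ‖b‖ ^ 2 with hD
  have ha' : 0 < ((starRingEnd ℂ) a / (D : ℂ)).re := by
    rw [Complex.div_ofReal_re, Complex.conj_re]; positivity
  have hab' : ‖-b / (D : ℂ)‖ < ‖(starRingEnd ℂ) a / (D : ℂ)‖ := by
    rw [norm_div, norm_div, norm_neg, Complex.norm_conj]
    have : 0 < ‖(D : ℂ)‖ := by
      rw [Complex.norm_real]; exact abs_pos.mpr hD0.ne'
    exact div_lt_div_of_pos_right hab this
  have hDc : (D : ℂ) ≠ 0 := by exact_mod_cast hD0.ne'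
  refine ⟨⟨Ph k a b, Ph k ((starRingEnd ℂ) a / D) (-b / D), inv_main hk ha hab hD, ?_⟩,
    continuous_Ph hk ha hab, continuous_Ph hk ha' hab'⟩
  have hD' : D⁻¹ = ‖(starRingEnd ℂ) a / (D : ℂ)‖ ^ 2 - ‖-b / (D : ℂ)‖ ^ 2 := by
    rw [norm_div, norm_div, norm_neg, Complex.norm_conj, Complex.norm_real, Real.norm_eq_abs,
      abs_of_pos hD0]
    field_simp
    rw [hD]
  have := inv_main hk ha' hab' hD'
  intro w
  have h2 := this w
  have e1 : (starRingEnd ℂ) ((starRingEnd ℂ) a / (D : ℂ)) / ((D⁻¹ : ℝ) : ℂ) = a := by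
    simp only [map_div₀, Complex.conj_conj, Complex.conj_ofReal]
    push_cast
    field_simp
  have e2 : -(-b / (D : ℂ)) / ((D⁻¹ : ℝ) : ℂ) = b := by
    push_cast
    field_simp
  rw [e1, e2] at h2
  exact h2

@[simp] lemma PhHomeo_apply {k : ℕ} (hk : 1 ≤ k) (a b : ℂ) (ha : 0 < a.re) (hab : ‖b‖ < ‖a‖)
    (w : ℂ) : PhHomeo hk a b ha hab w = Ph k a b w := rfl

theorem st_CONE : ST_CONE := by
  intro k t hk ht
  have ht' : 0 < t.im := ht
  set a : ℂ := (1 - Complex.I * t) / 2 with ha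
  set b : ℂ := (1 + Complex.I * t) / 2 with hb
  have hare : a.re = (1 + t.im) / 2 := by
    simp [ha]
  have haim : a.im = -t.re / 2 := by
    simp [ha]
  have hbre : b.re = (1 - t.im) / 2 := by
    simp [hb]; ring
  have hbim : b.im = t.re / 2 := by
    simp [hb]
  have ha0 : 0 < a.re := by rw [hare]; linarith
  have hab : ‖b‖ < ‖a‖ := by
    have e1 : ‖a‖ ^ 2 = a.re ^ 2 + a.im ^ 2 := by
      rw [← Complex.normSq_eq_norm_sq, Complex.normSq_apply]; ring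
    have e2 : ‖b‖ ^ 2 = b.re ^ 2 + b.im ^ 2 := by
      rw [← Complex.normSq_eq_norm_sq, Complex.normSq_apply]; ring
    have : ‖b‖ ^ 2 < ‖a‖ ^ 2 := by
      rw [e1, e2, hare, haim, hbre, hbim]; nlinarith
    exact lt_of_pow_lt_pow_left₀ 2 (norm_nonneg _) this
  refine ⟨PhHomeo hk a b ha0 hab, Ph_zero _ _ _, ?_, ?_⟩
  · intro s w hs
    simp only [PhHomeo_apply]
    have : uu k ((s : ℂ) * w) = uu k w := by
      have hsc : (s : ℂ) ≠ 0 := by exact_mod_cast hs.ne'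
      unfold uu
      congr 1
      rw [norm_mul, Complex.norm_real, Real.norm_eq_abs, abs_of_pos hs, map_mul, Complex.conj_ofReal]
      push_cast
      exact mul_div_mul_left _ _ hsc
    rw [Ph, Ph, mm, mm, this, mul_assoc]
  · intro w z hz
    simp only [PhHomeo_apply]
    rw [Ph_pow hk, ← hz]
    have htc : tc t z = a * z + b * (starRingEnd ℂ) z := by
      apply Complex.ext
      · simp [tc, hare, haim, hbre, hbim]; ring
      · simp [tc, hare, haim, hbre, hbim]; ring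
    rcases eq_or_ne w 0 with rfl | hw
    · have : z = 0 := by
        have : z ^ 2 = 0 := by rw [hz]; exact zero_pow (by omega)
        exact pow_eq_zero_iff (two_ne_zero) |>.mp this
      subst this
      simp [tc]
    have hz0 : z ≠ 0 := by
      intro h
      rw [h] at hz
      exact pow_ne_zero k hw (by rw [← hz]; simp)
    have hu : uu k w * z = (starRingEnd ℂ) z := by
      have h1 : uu k w * z ^ 2 = (starRingEnd ℂ) z * z := by
        rw [hz, uu_mul, mul_comm ((starRingEnd ℂ) z), Complex.mul_conj, Complex.normSq_eq_norm_sq]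
        have : ‖w‖ ^ k = ‖z‖ ^ 2 := by rw [← norm_pow, ← hz, norm_pow]
        exact_mod_cast this
      have h2 : (uu k w * z - (starRingEnd ℂ) z) * z = 0 := by
        linear_combination h1
      rcases mul_eq_zero.mp h2 with h | h
      · exact sub_eq_zero.mp h
      · exact absurd h hz0
    rw [htc, mm, ← hu]; ring

end Pool.Agent.Helper61.DilCone
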