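import Pool.Agent.Helper73.Dil.Pure

open Topology Set Filter MeasureTheory Metric

namespace Pool.Agent.Helper61.DilRemh

open Pool.Agent.Helper73.Dil

noncomputable def FF (V : ℂ → ℝ) (z : ℂ) : ℂ :=
  (fderiv ℝ V z 1 : ℂ) - Complex.I * (fderiv ℝ V z Complex.I : ℂ)

lemma hasFDeriv_re {P : ℂ → ℂ} {w : ℂ} (h : DifferentiableAt ℂ P w) {V : ℂ → ℝ}
    (hV : V =ᶠ[𝓝 w] fun w => (P w).re) :
    DifferentiableAt ℝ V w ∧ ∀ v, fderiv ℝ V w v = (v * deriv P w).re := by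
  have h1 := (h.hasDerivAt.hasFDerivAt).restrictScalars ℝ
  have h2 := (Complex.reCLM.hasFDerivAt (x := P w)).comp w h1
  have h3 : HasFDerivAt V _ w := h2.congr_of_eventuallyEq hV
  refine ⟨h3.differentiableAt, fun v => ?_⟩
  rw [h3.fderiv]
  simp

lemma FF_eq {P : ℂ → ℂ} {w : ℂ} (h : DifferentiableAt ℂ P w) {V : ℂ → ℝ}
    (hV : V =ᶠ[𝓝 w] fun w => (P w).re) : FF V w = deriv P w := by
  obtain ⟨-, h2⟩ := hasFDeriv_re h hV
  rw [FF, h2, h2]
  apply Complex.ext <;> simp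

lemma punct_conn (R : ℝ) : IsPreconnected (ball (0 : ℂ) R \ {0}) := by
  have h1 : IsPreconnected (Ioo (0 : ℝ) R ×ˢ (univ : Set ℝ)) :=
    isPreconnected_Ioo.prod isPreconnected_univ
  have h2 := h1.image (fun p : ℝ × ℝ => (p.1 : ℂ) * Complex.exp (p.2 * Complex.I))
    (by fun_prop)
  convert h2 using 1
  ext z
  constructor
  · rintro ⟨hz, hz0⟩
    rw [mem_ball_zero_iff] at hz
    have hz0' : z ≠ 0 := hz0
    refine ⟨(‖z‖, z.arg), ⟨⟨norm_pos_iff.mpr hz0', hz⟩, mem_univ _⟩, ?_⟩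
    exact Complex.norm_mul_exp_arg_mul_I z
  · rintro ⟨⟨a, b⟩, ⟨⟨ha0, haR⟩, -⟩, rfl⟩
    simp only at ha0 haR ⊢
    refine ⟨?_, ?_⟩
    · rw [mem_ball_zero_iff, norm_mul, Complex.norm_exp_ofReal_mul_I, mul_one, Complex.norm_real,
        Real.norm_eq_abs, abs_of_pos ha0]
      exact haR
    · rw [mem_singleton_iff]
      exact mul_ne_zero (by exact_mod_cast ha0.ne') (Complex.exp_ne_zero _)

theorem st_REMH : ST_REMH := by
  intro R V hR hloc hsmall
  have hF : ∀ z ∈ ball (0 : ℂ) R, z ≠ 0 → DifferentiableAt ℂ (FF V) z ∧ DifferentiableAt ℝ V z ∧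
      ∀ v, fderiv ℝ V z v = (v * FF V z).re := by
    intro z hz hz0
    obtain ⟨r, P, hr, hP, hV⟩ := hloc z hz hz0
    have hP' : ∀ w ∈ ball z r, DifferentiableAt ℂ P w := fun w hw =>
      hP.differentiableAt (isOpen_ball.mem_nhds hw)
    have hV' : ∀ w ∈ ball z r, V =ᶠ[𝓝 w] fun w => (P w).re := fun w hw => by
      filter_upwards [isOpen_ball.mem_nhds hw] with u hu using hV u hu
    have hzz : z ∈ ball z r := mem_ball_self hr
    have hFF : FF V =ᶠ[𝓝 z] deriv P := by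
      filter_upwards [isOpen_ball.mem_nhds hzz] with w hw using FF_eq (hP' w hw) (hV' w hw)
    have hd : DifferentiableAt ℂ (deriv P) z := (hP.deriv isOpen_ball).differentiableAt
      (isOpen_ball.mem_nhds hzz)
    refine ⟨hd.congr_of_eventuallyEq hFF, (hasFDeriv_re (hP' z hzz) (hV' z hzz)).1, fun v => ?_⟩
    rw [(hasFDeriv_re (hP' z hzz) (hV' z hzz)).2, FF_eq (hP' z hzz) (hV' z hzz)]
  have hd : DifferentiableOn ℂ (FF V) (ball 0 R \ {0}) := fun z hz =>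
    (hF z hz.1 hz.2).1.differentiableWithinAt
  have hbound : ∀ z, ‖FF V z‖ ≤ 2 * ‖fderiv ℝ V z‖ := by
    intro z
    unfold FF
    have h1 : ‖fderiv ℝ V z 1‖ ≤ ‖fderiv ℝ V z‖ := by
      simpa using (fderiv ℝ V z).le_opNorm 1
    have h2 : ‖fderiv ℝ V z Complex.I‖ ≤ ‖fderiv ℝ V z‖ := by
      simpa using (fderiv ℝ V z).le_opNorm Complex.I
    calc _ ≤ ‖((fderiv ℝ V z 1 : ℝ) : ℂ)‖ + ‖Complex.I * (fderiv ℝ V z Complex.I : ℂ)‖ := norm_sub_le _ _
      _ ≤ _ := by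
        rw [norm_mul, Complex.norm_I, one_mul, Complex.norm_real, Complex.norm_real]
        linarith
  have ho : (fun z => FF V z - FF V 0) =o[𝓝[≠] 0] fun z : ℂ => (z - 0)⁻¹ := by
    have e0 : (fun z : ℂ => (z - 0)⁻¹) = fun z => z⁻¹ := by funext z; simp
    rw [e0]
    apply Asymptotics.IsLittleO.sub
    · rw [Asymptotics.isLittleO_iff]
      intro c hc
      obtain ⟨δ, hδ, h⟩ := hsmall (c / 2) (by positivity)
      have : ball (0 : ℂ) δ ∈ 𝓝 (0 : ℂ) := isOpen_ball.mem_nhds (mem_ball_self hδ)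
      filter_upwards [nhdsWithin_le_nhds this, self_mem_nhdsWithin] with z hz hz0
      have hz0' : z ≠ 0 := hz0
      have hzn : 0 < ‖z‖ := norm_pos_iff.mpr hz0'
      rw [norm_inv, ← div_eq_mul_inv, le_div_iff₀ hzn]
      have := h z hz hz0'
      nlinarith [hbound z]
    · rw [Asymptotics.isLittleO_iff]
      intro c hc
      have hpos : 0 < c / (‖FF V 0‖ + 1) := by positivity
      have : ball (0 : ℂ) (c / (‖FF V 0‖ + 1)) ∈ 𝓝 (0 : ℂ) := isOpen_ball.mem_nhds (mem_ball_self hpos)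
      filter_upwards [nhdsWithin_le_nhds this, self_mem_nhdsWithin] with z hz hz0
      have hz0' : z ≠ 0 := hz0
      have hzn : 0 < ‖z‖ := norm_pos_iff.mpr hz0'
      rw [norm_inv, ← div_eq_mul_inv, le_div_iff₀ hzn]
      rw [mem_ball_zero_iff, lt_div_iff₀ (by positivity)] at hz
      nlinarith [norm_nonneg (FF V 0)]
  have hnhds : ball (0 : ℂ) R ∈ 𝓝 (0 : ℂ) := isOpen_ball.mem_nhds (mem_ball_self hR)
  have hrem := Complex.differentiableOn_update_limUnder_of_isLittleO hnhds hd ho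
  obtain ⟨Q, hQ⟩ := hrem.isExactOn_ball
  have hU : IsOpen (ball (0 : ℂ) R \ {0}) := isOpen_ball.sdiff isClosed_singleton
  have hQr : ∀ z ∈ ball (0 : ℂ) R, DifferentiableAt ℝ (fun z => (Q z).re) z ∧
      ∀ v, fderiv ℝ (fun z => (Q z).re) z v = (v * deriv Q z).re := fun z hz =>
    hasFDeriv_re (hQ z hz).differentiableAt (EventuallyEq.refl _ _)
  obtain ⟨a, ha⟩ := hU.exists_eq_add_of_fderiv_eq (punct_conn R)
    (f := V) (g := fun z => (Q z).re) (𝕜 := ℝ)
    (fun z hz => (hF z hz.1 hz.2).2.1.differentiableWithinAt)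
    (fun z hz => (hQr z hz.1).1.differentiableWithinAt)
    (fun z hz => by
      ext v
      rw [(hF z hz.1 hz.2).2.2 v, (hQr z hz.1).2 v, (hQ z hz.1).deriv,
        Function.update_of_ne hz.2])
  refine ⟨fun z => Q z + a, ?_, ?_⟩
  · exact fun z hz => ((hQ z hz).differentiableAt.add_const _).differentiableWithinAt
  · intro z hz hz0
    rw [ha ⟨hz, hz0⟩]
    simp

end Pool.Agent.Helper61.DilRemh
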