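import Pool.Agent.Helper73.Dil.Rat
import Pool.Agent.Helper61.Dil.CONE
import Pool.Agent.Helper61.Dil.REMH

open Topology Set Filter MeasureTheory Metric

namespace Pool.Agent.Helper61.DilExt

open Pool.Agent.Helper73.Dil
open Pool.Agent.Helper73.Dil.DilationSurface

/-! ### the real linear map `tc t` -/

lemma tc_add (t z w : ℂ) : tc t (z + w) = tc t z + tc t w := by
  simp [tc]; ring

lemma tc_smul (t : ℂ) (s : ℝ) (z : ℂ) : tc t (s * z) = s * tc t z := by
  simp [tc]; ring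

lemma tc_zero (t : ℂ) : tc t 0 = 0 := by simp [tc]

lemma tc_norm (t z : ℂ) : ‖tc t z‖ ≤ (1 + ‖t‖) * ‖z‖ := by
  unfold tc
  calc ‖(z.re : ℂ) + t * (z.im : ℂ)‖ ≤ ‖(z.re : ℂ)‖ + ‖t * (z.im : ℂ)‖ := norm_add_le _ _
    _ ≤ ‖z‖ + ‖t‖ * ‖z‖ := by
        rw [norm_mul, Complex.norm_real, Complex.norm_real]
        have h1 := Complex.abs_re_le_norm z
        have h2 := Complex.abs_im_le_norm z
        rw [Real.norm_eq_abs, Real.norm_eq_abs]
        have := norm_nonneg t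
        nlinarith
    _ = _ := by ring

/-- `tc t` as a homeomorphism -/
noncomputable def tcH (t : ℂ) (ht : t ∈ UH) : ℂ ≃ₜ ℂ where
  toFun := tc t
  invFun w := ⟨w.re - t.re * (w.im / t.im), w.im / t.im⟩
  left_inv z := by
    have h : t.im ≠ 0 := (show 0 < t.im from ht).ne'
    apply Complex.ext
    · simp [tc, h]
    · simp [tc, h]
  right_inv w := by
    have h : t.im ≠ 0 := (show 0 < t.im from ht).ne'
    apply Complex.ext
    · simp [tc]
    · simp [tc]; field_simp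
  continuous_toFun := by unfold tc; fun_prop
  continuous_invFun := by
    have : (fun w : ℂ => (⟨w.re - t.re * (w.im / t.im), w.im / t.im⟩ : ℂ)) =
      fun w : ℂ => ((w.re - t.re * (w.im / t.im) : ℝ) : ℂ) + ((w.im / t.im : ℝ) : ℂ) * Complex.I := by
      funext w
      apply Complex.ext <;> simp
    rw [this]
    fun_prop

lemma tcH_apply (t : ℂ) (ht : t ∈ UH) (z : ℂ) : tcH t ht z = tc t z := rfl

lemma tc_inj {t : ℂ} (ht : t ∈ UH) {z w : ℂ} (h : tc t z = tc t w) : z = w :=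
  (tcH t ht).injective h

lemma tc_image_open {t : ℂ} (ht : t ∈ UH) : IsOpen (tc t '' B1) :=
  (tcH t ht).isOpenMap _ isOpen_ball

lemma tc_cont (t : ℂ) : Continuous (tc t) := by unfold tc; fun_prop

lemma zero_mem_B1 : (0 : ℂ) ∈ B1 := mem_ball_self one_pos

/-! ### maximum principle for real parts -/

lemma re_max {P : ℂ → ℂ} {z0 : ℂ} (hd : ∀ᶠ z in 𝓝 z0, DifferentiableAt ℂ P z)
    (hm : IsLocalMax (fun z => (P z).re) z0) : ∀ᶠ z in 𝓝 z0, (P z).re = (P z0).re := by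
  have h1 : ∀ᶠ z in 𝓝 z0, DifferentiableAt ℂ (fun z => Complex.exp (P z)) z :=
    hd.mono fun z hz => hz.cexp
  have h2 : IsLocalMax (norm ∘ fun z => Complex.exp (P z)) z0 := by
    filter_upwards [hm] with z hz
    simp only [Function.comp_apply, Complex.norm_exp]
    exact Real.exp_le_exp.mpr hz
  filter_upwards [Complex.eventually_eq_of_isLocalMax_norm h1 h2] with z hz
  have := congrArg norm hz
  rw [Complex.norm_exp, Complex.norm_exp] at this
  exact Real.exp_injective this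

lemma re_min {P : ℂ → ℂ} {z0 : ℂ} (hd : ∀ᶠ z in 𝓝 z0, DifferentiableAt ℂ P z)
    (hm : IsLocalMin (fun z => (P z).re) z0) : ∀ᶠ z in 𝓝 z0, (P z).re = (P z0).re := by
  have h1 : ∀ᶠ z in 𝓝 z0, DifferentiableAt ℂ (fun z => -P z) z := hd.mono fun z hz => hz.neg
  have h2 : IsLocalMax (fun z => (-P z).re) z0 := by
    filter_upwards [hm] with z hz
    simp only [Complex.neg_re]; linarith
  filter_upwards [re_max h1 h2] with z hz
  simp only [Complex.neg_re] at hz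
  linarith

/-! ### square roots -/

/-- a continuous square root of a power is holomorphic -/
lemma sqrt_holo {h : ℂ → ℂ} {k : ℕ} {ζ0 : ℂ} (hζ0 : ζ0 ≠ 0) (hc : ContinuousAt h ζ0)
    (h0 : h ζ0 ≠ 0) (hsq : ∀ᶠ ζ in 𝓝 ζ0, h ζ ^ 2 = ζ ^ k) :
    ∃ h' : ℂ → ℂ, (h =ᶠ[𝓝 ζ0] h') ∧ (∀ᶠ ζ in 𝓝 ζ0, DifferentiableAt ℂ h' ζ) ∧
      deriv h' ζ0 = h ζ0 * (k / (2 * ζ0)) := by
  have hsq0 := hsq.self_of_nhds
  refine ⟨fun ζ => h ζ0 * (ζ ^ k / ζ0 ^ k) ^ (2⁻¹ : ℂ), ?_, ?_, ?_⟩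
  · have h1 : ContinuousAt (fun ζ => (h ζ / h ζ0).re) ζ0 :=
      Complex.continuous_re.continuousAt.comp (hc.div_const _)
    have h2 : ∀ᶠ ζ in 𝓝 ζ0, 0 < (h ζ / h ζ0).re := by
      have : (0 : ℝ) < (h ζ0 / h ζ0).re := by rw [div_self h0]; simp
      exact h1.eventually (lt_mem_nhds this)
    filter_upwards [h2, hsq] with ζ h3 h4
    rw [← h4, ← hsq0, ← div_pow, Complex.sq_cpow_two_inv h3, mul_div_cancel₀ _ h0]
  · have h1 : ContinuousAt (fun ζ : ℂ => ζ ^ k / ζ0 ^ k) ζ0 := by fun_prop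
    have h2 : (fun ζ : ℂ => ζ ^ k / ζ0 ^ k) ζ0 ∈ Complex.slitPlane := by
      simp only
      rw [div_self (pow_ne_zero _ hζ0)]; exact Complex.one_mem_slitPlane
    have h3 := h1.eventually (Complex.isOpen_slitPlane.mem_nhds h2)
    filter_upwards [h3] with ζ hζ
    apply DifferentiableAt.const_mul
    exact DifferentiableAt.cpow_const (by fun_prop) hζ
  · have hb : ζ0 ^ k / ζ0 ^ k = 1 := div_self (pow_ne_zero _ hζ0)
    have h1 : HasDerivAt (fun ζ : ℂ => ζ ^ k / ζ0 ^ k) ((k * ζ0 ^ (k - 1)) / ζ0 ^ k) ζ0 :=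
      (hasDerivAt_pow k ζ0).div_const _
    have h2 : ζ0 ^ k / ζ0 ^ k ∈ Complex.slitPlane := by rw [hb]; exact Complex.one_mem_slitPlane
    have h3 := (h1.cpow_const (c := 2⁻¹) h2).const_mul (h ζ0)
    rw [h3.deriv, hb, Complex.one_cpow]
    rcases Nat.eq_zero_or_pos k with hk | hk
    · subst hk; simp
    · have : ζ0 ^ k = ζ0 ^ (k - 1) * ζ0 := by rw [← pow_succ]; congr 1; omega
      rw [this]
      have h4 : ζ0 ^ (k - 1) ≠ 0 := pow_ne_zero _ hζ0
      field_simp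


universe u

section
variable {X : Type u} [TopologicalSpace X] {D : DilationSurface X}

/-- flatness of the scale on a cone ball -/
def Flat (S : D.Scale) (p : X) (k : ℕ) (ψ : OpenPartialHomeomorph X ℂ) : Prop :=
  ∀ x ∈ ψ.source, x ≠ p → ∀ e, D.IsChart e → x ∈ e.source → ∀ (a : ℝ) (b : ℂ), a ≠ 0 →
        (∀ᶠ y in 𝓝 x, (a * e y + b) ^ 2 = ψ y ^ k) → S.u e x = - Real.log |a|

lemma ne_zero_of_ne {p : X} {k : ℕ} {ψ : OpenPartialHomeomorph X ℂ} (h : D.IsConeBall p k ψ)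
    {x : X} (hx : x ∈ ψ.source) (hne : x ≠ p) : ψ x ≠ 0 := by
  intro h0
  apply hne
  apply ψ.injOn hx h.src
  rw [h0, h.zero]

variable [MeasurableSpace X]

/-- local holomorphic form of a solution in the conformal coordinate of a flat cone ball -/
lemma localForm (hC : SB_CBB.{u}) {p : X} {k : ℕ} {ψ : OpenPartialHomeomorph X ℂ}
    (hcb : D.IsConeBall p k ψ) (R : D.Ref) (S : D.Scale) (hflat : Flat S p k ψ) {t : ℂ}
    (ht : t ∈ UH) {c : R.H} {f : X → ℝ} (hsol : R.IsSol S t c f) (Ψ : ℂ ≃ₜ ℂ) (hΨ0 : Ψ 0 = 0)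
    (hΨ : ∀ w z : ℂ, z ^ 2 = w ^ k → (Ψ w) ^ k = (tc t z) ^ 2) {x : X} (hx : x ∈ ψ.source)
    (hne : x ≠ p) (hsm : ‖ψ x‖ < 1 / 4) :
    ∃ (Q : ℂ → ℂ) (b : OpenPartialHomeomorph X ℂ) (w : ℂ → ℂ),
      (∀ᶠ ζ in 𝓝 (Ψ (ψ x)), DifferentiableAt ℂ Q ζ ∧ f (ψ.symm (Ψ.symm ζ)) = (Q ζ).re) ∧
      D.IsBall b ∧ b.source ⊆ ψ.source ∧ (∀ y ∈ b.source, y ≠ p ∧ ‖ψ y‖ ≤ 9 / 4 * ‖ψ x‖) ∧
      DifferentiableOn ℂ w (tc t '' B1) ∧
      (R.loc b c =ᵐ[volume.restrict B1] fun z => deriv w (tc t z)) ∧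
      ‖Ψ (ψ x)‖ * ‖deriv Q (Ψ (ψ x))‖ ≤ k * (1 + ‖t‖) * ‖deriv w 0‖ := by
  obtain ⟨b, z0, hb, hxb, hbx, hz0, hsub, hform⟩ := hC X D p k ψ hcb x hx hne hsm
  obtain ⟨w, hw, hwc, hwf⟩ := hsol b hb
  have hψx : ψ x ≠ 0 := ne_zero_of_ne hcb hx hne
  have hz0' : z0 ≠ 0 := by
    intro h
    rw [h] at hz0
    exact pow_ne_zero k hψx (by rw [← hz0]; simp)
  have hs : 0 < ‖z0‖ / 2 := by have := norm_pos_iff.mpr hz0'; positivity
  set s : ℝ := ‖z0‖ / 2 with hsdef
  have hsc : (s : ℂ) ≠ 0 := by exact_mod_cast hs.ne'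
  set ζ0 : ℂ := Ψ (ψ x) with hζ0
  have hζ0' : ζ0 ≠ 0 := by
    intro h
    apply hψx
    apply Ψ.injective
    rw [← hζ0, h, hΨ0]
  -- the map back to the surface
  set y : ℂ → X := fun ζ => ψ.symm (Ψ.symm ζ) with hy
  have hyx : y ζ0 = x := by
    simp only [hy, hζ0, Homeomorph.symm_apply_apply]
    exact ψ.left_inv hx
  have htgt : Ψ.symm ζ0 ∈ ψ.target := by
    rw [hζ0, Homeomorph.symm_apply_apply]; exact ψ.map_source hx
  have hyc : ContinuousAt y ζ0 := by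
    apply ContinuousAt.comp
    · exact ψ.symm.continuousAt (by simpa using htgt)
    · exact Ψ.symm.continuous.continuousAt
  have hytgt : ∀ᶠ ζ in 𝓝 ζ0, Ψ.symm ζ ∈ ψ.target :=
    Ψ.symm.continuous.continuousAt.eventually (ψ.open_target.mem_nhds htgt)
  have hyb : ∀ᶠ ζ in 𝓝 ζ0, y ζ ∈ b.source := by
    apply hyc.eventually
    rw [hyx]
    exact b.open_source.mem_nhds hxb
  set hh : ℂ → ℂ := fun ζ => tc t (s * b (y ζ) + z0) with hhdef
  have hhc : ContinuousAt hh ζ0 := by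
    have h1 : ContinuousAt b (y ζ0) := by rw [hyx]; exact b.continuousAt hxb
    have h2 : ContinuousAt (fun ζ => b (y ζ)) ζ0 := h1.comp hyc
    exact (tc_cont t).continuousAt.comp ((continuousAt_const.mul h2).add continuousAt_const)
  have hh0 : hh ζ0 = tc t z0 := by simp only [hhdef, hyx, hbx]; simp
  have hh0' : hh ζ0 ≠ 0 := by
    rw [hh0]
    intro h
    apply hz0'
    apply tc_inj ht
    rw [h, tc_zero]
  have hsq : ∀ᶠ ζ in 𝓝 ζ0, hh ζ ^ 2 = ζ ^ k := by
    filter_upwards [hyb, hytgt] with ζ h1 h2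
    have h3 := (hform _ h1).2.1
    have h4 := hΨ _ _ h3
    have h5 : ψ (y ζ) = Ψ.symm ζ := ψ.right_inv h2
    rw [h5, Homeomorph.apply_symm_apply] at h4
    exact h4.symm
  obtain ⟨h', he, hd, hder⟩ := sqrt_holo hζ0' hhc hh0' hsq
  have hopen := tc_image_open ht
  have h0mem : (0 : ℂ) ∈ tc t '' B1 := ⟨0, zero_mem_B1, tc_zero t⟩
  have hwd0 : ∀ᶠ u in 𝓝 (0 : ℂ), DifferentiableAt ℂ w u := by
    filter_upwards [hopen.mem_nhds h0mem] with u hu
    exact hw.differentiableAt (hopen.mem_nhds hu)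
  have he0 : h' ζ0 = tc t z0 := by rw [← he.self_of_nhds, hh0]
  have harg : ∀ᶠ ζ in 𝓝 ζ0, DifferentiableAt ℂ w ((h' ζ - tc t z0) / s) := by
    have h1 : ContinuousAt (fun ζ => (h' ζ - tc t z0) / (s : ℂ)) ζ0 :=
      (hd.self_of_nhds.continuousAt.sub continuousAt_const).div_const _
    have h2 : (h' ζ0 - tc t z0) / (s : ℂ) = 0 := by simp [he0]
    have h3 := h1.tendsto
    rw [h2] at h3
    exact h3.eventually hwd0
  refine ⟨fun ζ => w ((h' ζ - tc t z0) / s) + Real.log s, b, w, ?_, hb, hsub, ?_, hw, hwc, ?_⟩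
  · filter_upwards [hyb, hytgt, he, hd, harg] with ζ h1 h2 h3 h4 h5
    constructor
    · apply DifferentiableAt.add_const
      exact DifferentiableAt.comp ζ h5 ((h4.sub_const _).div_const _)
    · have h6 : b (y ζ) ∈ B1 := by rw [← hb.2]; exact b.map_source h1
      have h7 := hwf _ h6
      rw [b.left_inv h1] at h7
      have h8 : S.u b (y ζ) = - Real.log |s| := by
        apply hflat _ (hsub h1) (hform _ h1).1 b hb.1 h1 s z0 hs.ne'
        filter_upwards [b.open_source.mem_nhds h1] with y' hy'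
        exact (hform _ hy').2.1
      have h9 : (h' ζ - tc t z0) / s = tc t (b (y ζ)) := by
        rw [← h3, hhdef]
        simp only
        rw [tc_add, tc_smul]
        field_simp
        ring
      rw [h9, Complex.add_re, Complex.ofReal_re, ← h7, h8, abs_of_pos hs]
      change f (y ζ) = _
      ring
  · intro y' hy'
    exact ⟨(hform _ hy').1, (hform _ hy').2.2.2⟩
  · have h1 : HasDerivAt h' (hh ζ0 * (k / (2 * ζ0))) ζ0 := by
      rw [← hder]; exact hd.self_of_nhds.hasDerivAt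
    have h2 : HasDerivAt (fun ζ => (h' ζ - tc t z0) / (s : ℂ)) (hh ζ0 * (k / (2 * ζ0)) / s) ζ0 :=
      (h1.sub_const _).div_const _
    have h3 : HasDerivAt w (deriv w 0) ((fun ζ => (h' ζ - tc t z0) / (s : ℂ)) ζ0) := by
      have : (fun ζ => (h' ζ - tc t z0) / (s : ℂ)) ζ0 = 0 := by simp [he0]
      rw [this]
      exact hwd0.self_of_nhds.hasDerivAt
    have h4 : HasDerivAt (fun ζ => w ((h' ζ - tc t z0) / s) + Real.log s)
        (deriv w 0 * (hh ζ0 * (k / (2 * ζ0)) / s)) ζ0 :=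
      (HasDerivAt.comp ζ0 h3 h2).add_const _
    rw [h4.deriv, hh0]
    have h5 := tc_norm t z0
    have hζn : 0 < ‖ζ0‖ := norm_pos_iff.mpr hζ0'
    have hzn : 0 < ‖z0‖ := norm_pos_iff.mpr hz0'
    rw [norm_mul, norm_div, norm_mul, norm_div, norm_mul, Complex.norm_real, Complex.norm_natCast,
      Complex.norm_ofNat, Real.norm_eq_abs, abs_of_pos hs, hsdef]
    have e : ‖ζ0‖ * (‖deriv w 0‖ * (‖tc t z0‖ * (↑k / (2 * ‖ζ0‖)) / (‖z0‖ / 2))) =
        k * (‖tc t z0‖ / ‖z0‖) * ‖deriv w 0‖ := by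
      field_simp
    rw [e]
    have h6 : ‖tc t z0‖ / ‖z0‖ ≤ 1 + ‖t‖ := by
      rw [div_le_iff₀ hzn]; exact h5
    have hk : (0 : ℝ) ≤ k := Nat.cast_nonneg k
    have := norm_nonneg (deriv w 0)
    gcongr

/-- the square norm of an `L²` function -/
lemma sq_norm_eq {Y : Type*} [MeasurableSpace Y] {ν : Measure Y} (g : Lp ℂ 2 ν) :
    Integrable (fun z => ‖g z‖ ^ 2) ν ∧ ‖g‖ ^ 2 = ∫ z, ‖g z‖ ^ 2 ∂ν := by
  constructor
  · exact (Lp.memLp g).integrable_norm_pow (by norm_num)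
  · have h1 : inner ℂ g g = ∫ z, inner ℂ (g z) (g z) ∂ν := L2.inner_def g g
    have h2 : (inner ℂ g g : ℂ) = ((‖g‖ ^ 2 : ℝ) : ℂ) := by
      rw [inner_self_eq_norm_sq_to_K]; push_cast; rfl
    have h3 : (fun z => (inner ℂ (g z) (g z) : ℂ)) = fun z => ((‖g z‖ ^ 2 : ℝ) : ℂ) := by
      funext z
      rw [inner_self_eq_norm_sq_to_K]; push_cast; rfl
    rw [h2, h3, integral_complex_ofReal] at h1
    exact_mod_cast h1

/-- interior bound for the derivative in terms of the energy in a flat ball -/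
lemma grad_bound [CompactSpace X] [T2Space X] [BorelSpace X] (hG : ST_GRADB) (hL : SB_LOCL.{u})
    (R : D.Ref) {t : ℂ} (ht : t ∈ UH) :
    ∃ C : ℝ, 0 ≤ C ∧ ∀ (c : R.H) (b : OpenPartialHomeomorph X ℂ) (w : ℂ → ℂ), D.IsBall b →
      DifferentiableOn ℂ w (tc t '' B1) →
      (R.loc b c =ᵐ[volume.restrict B1] fun z => deriv w (tc t z)) →
      ‖deriv w 0‖ ≤ C * Real.sqrt (∫ x in b.source, ‖c x‖ ^ 2 ∂(R.mu)) := by
  obtain ⟨C, hC⟩ := hG t ht
  refine ⟨max C 0, le_max_right _ _, ?_⟩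
  intro c b w hb hw hwc
  obtain ⟨L, hL1, hL2, -⟩ := (hL X D R).1 b hb
  have h1 : (fun z => ‖(L c) z‖ ^ 2) =ᵐ[volume.restrict B1] fun z => ‖deriv w (tc t z)‖ ^ 2 := by
    filter_upwards [hL1 c, hwc] with z hz1 hz2
    rw [hz1, hz2]
  have h2 := sq_norm_eq (L c)
  have h3 : IntegrableOn (fun z => ‖deriv w (tc t z)‖ ^ 2) B1 := h2.1.congr h1
  have h4 := hC w hw h3
  rw [← integral_congr_ae h1, ← h2.2, hL2 c] at h4
  refine h4.trans ?_
  exact mul_le_mul_of_nonneg_right (le_max_left _ _) (Real.sqrt_nonneg _)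

/-- near a flat cone point a solution is the real part of a holomorphic function of the
conformal coordinate -/
lemma key [CompactSpace X] [T2Space X] [BorelSpace X] (hG : ST_GRADB) (hC : SB_CBB.{u})
    (hL : SB_LOCL.{u}) {p : X} {k : ℕ} {ψ : OpenPartialHomeomorph X ℂ}
    (hcb : D.IsConeBall p k ψ) (R : D.Ref) (S : D.Scale) (hflat : Flat S p k ψ) {t : ℂ}
    (ht : t ∈ UH) {c : R.H} {f : X → ℝ} (hsol : R.IsSol S t c f) (Ψ : ℂ ≃ₜ ℂ) (hΨ0 : Ψ 0 = 0)
    (hΨ : ∀ w z : ℂ, z ^ 2 = w ^ k → (Ψ w) ^ k = (tc t z) ^ 2) :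
    ∃ (r : ℝ) (P : ℂ → ℂ), 0 < r ∧ DifferentiableOn ℂ P (ball 0 r) ∧
      ∀ ζ ∈ ball (0 : ℂ) r, ζ ≠ 0 → f (ψ.symm (Ψ.symm ζ)) = (P ζ).re := by
  have hΨs0 : Ψ.symm 0 = 0 := by rw [Homeomorph.symm_apply_eq, hΨ0]
  -- neighbourhoods of the origin
  have hnb : ∀ ε > 0, ∃ δ > 0, ∀ ζ ∈ ball (0 : ℂ) δ, ‖Ψ.symm ζ‖ < ε := by
    intro ε hε
    have h1 : ContinuousAt Ψ.symm 0 := Ψ.symm.continuous.continuousAt
    rw [Metric.continuousAt_iff] at h1
    obtain ⟨δ, hδ, h⟩ := h1 ε hε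
    refine ⟨δ, hδ, fun ζ hζ => ?_⟩
    have := h (by simpa using hζ)
    rwa [hΨs0, dist_zero_right] at this
  obtain ⟨r, hr, hr2⟩ := hnb (1 / 4) (by norm_num)
  have hpt : ∀ ζ : ℂ, ζ ≠ 0 → ‖Ψ.symm ζ‖ < 1 / 4 →
      ψ.symm (Ψ.symm ζ) ∈ ψ.source ∧ ψ.symm (Ψ.symm ζ) ≠ p ∧ ψ (ψ.symm (Ψ.symm ζ)) = Ψ.symm ζ := by
    intro ζ hζ h
    have htgt : Ψ.symm ζ ∈ ψ.target := by
      rw [hcb.tgt, B1, mem_ball_zero_iff]; linarith
    have h1 := ψ.right_inv htgt
    refine ⟨ψ.map_target htgt, ?_, h1⟩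
    intro hp
    rw [hp, hcb.zero] at h1
    apply hζ
    have : Ψ.symm ζ = Ψ.symm 0 := by rw [← h1, hΨs0]
    exact Ψ.symm.injective this
  obtain ⟨C, hC0, hCb⟩ := grad_bound hG hL R ht
  -- shrinking sets
  set sn : ℕ → Set X := fun n => {y | y ∈ ψ.source ∧ y ≠ p ∧ ‖ψ y‖ < 1 / (n + 1)} with hsn
  have hopen : ∀ n, IsOpen (sn n) := by
    intro n
    have h1 : IsOpen (ψ.source ∩ ψ ⁻¹' ball 0 (1 / (n + 1))) := ψ.isOpen_inter_preimage isOpen_ball
    have h2 : IsOpen ({p}ᶜ : Set X) := isOpen_compl_singleton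
    convert h1.inter h2 using 1
    ext y
    simp only [hsn, mem_ofPred_eq, mem_inter_iff, mem_preimage, mem_ball_zero_iff, mem_compl_iff,
      mem_singleton_iff]
    tauto
  have hanti : Antitone sn := by
    intro n m hnm y hy
    refine ⟨hy.1, hy.2.1, hy.2.2.trans_le ?_⟩
    apply one_div_le_one_div_of_le (by positivity)
    have : (n : ℝ) ≤ m := by exact_mod_cast hnm
    linarith
  have hempty : (⋂ n, sn n) = ∅ := by
    rw [eq_empty_iff_forall_notMem]
    intro y hy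
    rw [mem_iInter] at hy
    have h0 := hy 0
    have hψ := ne_zero_of_ne hcb h0.1 h0.2.1
    have hn : 0 < ‖ψ y‖ := norm_pos_iff.mpr hψ
    obtain ⟨n, hn2⟩ := exists_nat_one_div_lt hn
    have := (hy n).2.2
    linarith
  have hint : Integrable (fun x => ‖c x‖ ^ 2) R.mu := (sq_norm_eq c).1
  have hlim : Tendsto (fun n => ∫ x in sn n, ‖c x‖ ^ 2 ∂(R.mu)) atTop (𝓝 0) := by
    have := tendsto_setIntegral_of_antitone (μ := R.mu) (f := fun x => ‖c x‖ ^ 2)
      (fun n => (hopen n).measurableSet) hanti ⟨0, hint.integrableOn⟩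
    rwa [hempty, setIntegral_empty] at this
  -- apply the removable singularity theorem
  obtain ⟨P, hP, hPV⟩ := Pool.Agent.Helper61.DilRemh.st_REMH r
    (fun ζ => f (ψ.symm (Ψ.symm ζ))) hr
    (by
      intro ζ hζ hζ0
      obtain ⟨h1, h2, h3⟩ := hpt ζ hζ0 (hr2 ζ hζ)
      obtain ⟨Q, b, w, hQ, -⟩ := localForm hC hcb R S hflat ht hsol Ψ hΨ0 hΨ h1 h2
        (by rw [h3]; exact hr2 ζ hζ)
      rw [h3, Homeomorph.apply_symm_apply] at hQ
      obtain ⟨ρ, hρ, hρ2⟩ := Metric.eventually_nhds_iff_ball.mp hQ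
      exact ⟨ρ, Q, hρ, fun u hu => (hρ2 u hu).1.differentiableWithinAt, fun u hu => (hρ2 u hu).2⟩)
    (by
      intro ε hε
      set K : ℝ := k * (1 + ‖t‖) * C with hK
      have hK0 : 0 ≤ K := by positivity
      have hε2 : 0 < (ε / (K + 1)) ^ 2 := by positivity
      obtain ⟨n, hn⟩ := (hlim.eventually (gt_mem_nhds hε2)).exists
      obtain ⟨δ, hδ, hδ2⟩ := hnb (min (1 / 4) (4 / 9 * (1 / (n + 1)))) (by positivity)
      refine ⟨δ, hδ, fun ζ hζ hζ0 => ?_⟩
      have hζs := hδ2 ζ hζ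
      have hζ4 : ‖Ψ.symm ζ‖ < 1 / 4 := hζs.trans_le (min_le_left _ _)
      have hζn : ‖Ψ.symm ζ‖ < 4 / 9 * (1 / (n + 1)) := hζs.trans_le (min_le_right _ _)
      obtain ⟨h1, h2, h3⟩ := hpt ζ hζ0 hζ4
      obtain ⟨Q, b, w, hQ, hb, hbs, hby, hw, hwc, hbd⟩ := localForm hC hcb R S hflat ht hsol Ψ hΨ0
        hΨ h1 h2 (by rw [h3]; exact hζ4)
      rw [h3, Homeomorph.apply_symm_apply] at hQ hbd
      rw [h3] at hby
      have hsub : b.source ⊆ sn n := by
        intro y hy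
        refine ⟨hbs hy, (hby y hy).1, ?_⟩
        have := (hby y hy).2
        linarith
      have h5 : ∫ x in b.source, ‖c x‖ ^ 2 ∂(R.mu) ≤ ∫ x in sn n, ‖c x‖ ^ 2 ∂(R.mu) := by
        apply setIntegral_mono_set hint.integrableOn
        · exact Eventually.of_forall fun x => by positivity
        · exact LE.le.eventuallyLE hsub
      have h6 : Real.sqrt (∫ x in b.source, ‖c x‖ ^ 2 ∂(R.mu)) ≤ ε / (K + 1) := by
        rw [Real.sqrt_le_left (by positivity)]
        exact h5.trans hn.le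
      have h7 := hCb c b w hb hw hwc
      have h8 : ‖fderiv ℝ (fun ζ => f (ψ.symm (Ψ.symm ζ))) ζ‖ ≤ ‖deriv Q ζ‖ := by
        have h9 := Pool.Agent.Helper61.DilRemh.hasFDeriv_re (P := Q) hQ.self_of_nhds.1
          (V := fun ζ => f (ψ.symm (Ψ.symm ζ))) (hQ.mono fun u hu => hu.2)
        apply ContinuousLinearMap.opNorm_le_bound _ (norm_nonneg _)
        intro v
        rw [h9.2 v, Real.norm_eq_abs]
        calc |(v * deriv Q ζ).re| ≤ ‖v * deriv Q ζ‖ := Complex.abs_re_le_norm _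
          _ = _ := by rw [norm_mul, mul_comm]
      calc ‖ζ‖ * ‖fderiv ℝ (fun ζ => f (ψ.symm (Ψ.symm ζ))) ζ‖ ≤ ‖ζ‖ * ‖deriv Q ζ‖ :=
            mul_le_mul_of_nonneg_left h8 (norm_nonneg _)
        _ ≤ k * (1 + ‖t‖) * ‖deriv w 0‖ := hbd
        _ ≤ k * (1 + ‖t‖) * (C * (ε / (K + 1))) := by
            apply mul_le_mul_of_nonneg_left _ (by positivity)
            exact h7.trans (mul_le_mul_of_nonneg_left h6 hC0)
        _ = (K / (K + 1)) * ε := by rw [hK]; ring
        _ ≤ 1 * ε := by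
            apply mul_le_mul_of_nonneg_right _ hε.le
            rw [div_le_one (by positivity)]
            linarith
        _ = ε := one_mul _)
  exact ⟨r, P, hr, hP, hPV⟩

omit [MeasurableSpace X] in
/-- the maximum principle in a local conformal coordinate -/
lemma max_of_coord {f' : X → ℝ} {x : X} {φ : X → ℂ} {φi : ℂ → X} {P : ℂ → ℂ}
    (hφ : ContinuousAt φ x) (hφi : ContinuousAt φi (φ x)) (h0 : φi (φ x) = x)
    (hr : ∀ᶠ ζ in 𝓝 (φ x), φ (φi ζ) = ζ) (hP : ∀ᶠ ζ in 𝓝 (φ x), DifferentiableAt ℂ P ζ)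
    (hf : ∀ᶠ y in 𝓝 x, f' y = (P (φ y)).re) (hm : IsLocalMax f' x ∨ IsLocalMin f' x) :
    ∀ᶠ y in 𝓝 x, f' y = f' x := by
  have ht : Tendsto φi (𝓝 (φ x)) (𝓝 x) := by
    have := hφi.tendsto; rwa [h0] at this
  have hf0 := hf.self_of_nhds
  have h1 : ∀ᶠ ζ in 𝓝 (φ x), f' (φi ζ) = (P ζ).re := by
    filter_upwards [ht.eventually hf, hr] with ζ h2 h3
    rw [h2, h3]
  have h2 : ∀ᶠ ζ in 𝓝 (φ x), (P ζ).re = (P (φ x)).re := by
    rcases hm with hm | hm
    · apply re_max hP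
      filter_upwards [h1, ht.eventually hm] with ζ h3 h4
      rw [← h3, ← hf0]; exact h4
    · apply re_min hP
      filter_upwards [h1, ht.eventually hm] with ζ h3 h4
      rw [← h3, ← hf0]; exact h4
  filter_upwards [hf, hφ.eventually h2] with y h3 h4
  rw [h3, h4, hf0]

omit [MeasurableSpace X] in
lemma punct_neBot (e : OpenPartialHomeomorph X ℂ) {x : X} (hx : x ∈ e.source) : (𝓝[≠] x).NeBot := by
  rw [nhdsWithin, inf_principal_neBot_iff]
  intro U hU
  obtain ⟨y, hy1, hy2⟩ := chart_frequently_ne e hx (p := fun y => y ∈ U) hU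
  refine ⟨y, hy1, ?_⟩
  rw [mem_compl_iff, mem_singleton_iff]
  rintro rfl
  exact hy2 rfl

end

theorem sb_EXT (hG : ST_GRADB) (hC : SB_CBB.{u}) (hL : SB_LOCL.{u}) : SB_EXT.{u} := by
  intro X _ _ _ _ _ _ D R S t c f ht hsol
  classical
  -- the local description near a cone point
  have hcone : ∀ p ∈ D.cone, ∀ k ψ, D.IsConeBall p k ψ → Flat S p k ψ →
      ∃ (Ψ : ℂ ≃ₜ ℂ) (P : ℂ → ℂ), Ψ 0 = 0 ∧ (∀ᶠ ζ in 𝓝 (0 : ℂ), DifferentiableAt ℂ P ζ) ∧
        ∀ᶠ y in 𝓝[≠] p, f y = (P (Ψ (ψ y))).re := by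
    intro p hp k ψ hcb hflat
    obtain ⟨Ψ, hΨ0, -, hΨ⟩ := Pool.Agent.Helper61.DilCone.st_CONE k t hcb.one_le ht
    obtain ⟨r, P, hr, hP, hPV⟩ := key hG hC hL hcb R S hflat ht hsol Ψ hΨ0 hΨ
    refine ⟨Ψ, P, hΨ0, ?_, ?_⟩
    · filter_upwards [isOpen_ball.mem_nhds (mem_ball_self hr)] with ζ hζ
      exact hP.differentiableAt (isOpen_ball.mem_nhds hζ)
    · have h1 : ContinuousAt (fun y => Ψ (ψ y)) p :=
        Ψ.continuous.continuousAt.comp (ψ.continuousAt hcb.src)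
      have h2 : Ψ (ψ p) = 0 := by rw [hcb.zero, hΨ0]
      have h2' : ball (0 : ℂ) r ∈ 𝓝 (Ψ (ψ p)) := by
        rw [h2]; exact isOpen_ball.mem_nhds (mem_ball_self hr)
      have h3 : ∀ᶠ y in 𝓝 p, Ψ (ψ y) ∈ ball (0 : ℂ) r := h1.eventually h2'
      filter_upwards [nhdsWithin_le_nhds h3, nhdsWithin_le_nhds (ψ.open_source.mem_nhds hcb.src),
        self_mem_nhdsWithin] with y h4 h5 h6
      have h7 : Ψ (ψ y) ≠ 0 := by
        intro h
        apply ne_zero_of_ne hcb h5 h6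
        apply Ψ.injective
        rw [h, hΨ0]
      have := hPV _ h4 h7
      rwa [Homeomorph.symm_apply_apply, ψ.left_inv h5] at this
  have hclosed : IsClosed D.cone := D.cone_finite.isClosed
  set f' : X → ℝ := fun x => if x ∈ D.cone then limUnder (𝓝[≠] x) f else f x with hf'
  have hreg : ∀ x, x ∉ D.cone → f' x = f x := fun x hx => by simp [hf', hx]
  have hevreg : ∀ x, x ∉ D.cone → ∀ᶠ y in 𝓝 x, f' y = f y := fun x hx => by
    filter_upwards [hclosed.isOpen_compl.mem_nhds hx] with y hy using hreg y hy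
  have hpun : ∀ p : X, ∀ᶠ y in 𝓝[≠] p, f' y = f y := by
    intro p
    have h1 : IsClosed (D.cone \ {p}) := (D.cone_finite.subset sdiff_subset).isClosed
    have h2 : (D.cone \ {p})ᶜ ∈ 𝓝 p := h1.isOpen_compl.mem_nhds (by simp)
    filter_upwards [nhdsWithin_le_nhds h2, self_mem_nhdsWithin] with y hy hy2
    apply hreg
    intro h
    exact hy ⟨h, hy2⟩
  -- value and local form at the cone points
  have hloc : ∀ p ∈ D.cone, ∀ k ψ, D.IsConeBall p k ψ → Flat S p k ψ →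
      ∃ (Ψ : ℂ ≃ₜ ℂ) (P : ℂ → ℂ), Ψ 0 = 0 ∧ (∀ᶠ ζ in 𝓝 (0 : ℂ), DifferentiableAt ℂ P ζ) ∧
        ∀ᶠ y in 𝓝 p, f' y = (P (Ψ (ψ y))).re := by
    intro p hp k ψ hcb hflat
    obtain ⟨Ψ, P, hΨ0, hP, hev⟩ := hcone p hp k ψ hcb hflat
    refine ⟨Ψ, P, hΨ0, hP, ?_⟩
    have hne : (𝓝[≠] p).NeBot := punct_neBot ψ hcb.src
    have h1 : ContinuousAt (fun y => (P (Ψ (ψ y))).re) p := by
      have h2 : ContinuousAt (fun y => Ψ (ψ y)) p :=
        Ψ.continuous.continuousAt.comp (ψ.continuousAt hcb.src)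
      have h3 : Ψ (ψ p) = 0 := by rw [hcb.zero, hΨ0]
      have h4 : ContinuousAt P (Ψ (ψ p)) := by rw [h3]; exact hP.self_of_nhds.continuousAt
      exact Complex.continuous_re.continuousAt.comp
        (ContinuousAt.comp (g := P) (f := fun y => Ψ (ψ y)) h4 h2)
    have h2 : Tendsto f (𝓝[≠] p) (𝓝 ((P (Ψ (ψ p))).re)) := by
      have h3 := h1.tendsto.mono_left (nhdsWithin_le_nhds (s := {p}ᶜ))
      exact h3.congr' (hev.mono fun y hy => hy.symm)
    have h3 : f' p = (P (Ψ (ψ p))).re := by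
      simp only [hf', hp, if_true]
      exact h2.limUnder_eq
    have h4 : ∀ᶠ y in 𝓝[≠] p, f' y = (P (Ψ (ψ y))).re := by
      filter_upwards [hev, hpun p] with y h5 h6
      rw [h6, h5]
    rw [eventually_nhdsWithin_iff] at h4
    filter_upwards [h4] with y hy
    by_cases hyp : y = p
    · rw [hyp, h3]
    · exact hy hyp
  -- local form at the regular points
  have hlocr : ∀ x, x ∉ D.cone → ∃ (b : OpenPartialHomeomorph X ℂ) (w : ℂ → ℂ), D.IsBall b ∧
      x ∈ b.source ∧ DifferentiableOn ℂ w (tc t '' B1) ∧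
      ∀ y ∈ b.source, f y = (w (tc t (b y))).re - S.u b y := by
    intro x hx
    obtain ⟨b, hb, hxb, -, -⟩ := sb_BALL X D x hx univ univ_mem
    obtain ⟨w, hw, -, hwf⟩ := hsol b hb
    refine ⟨b, w, hb, hxb, hw, fun y hy => ?_⟩
    have h6 : b y ∈ B1 := by rw [← hb.2]; exact b.map_source hy
    have h7 := hwf _ h6
    rw [b.left_inv hy] at h7
    linarith
  have hopen := tc_image_open ht
  refine ⟨f', ?_, hreg, ?_⟩
  · rw [continuous_iff_continuousAt]
    intro x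
    by_cases hx : x ∈ D.cone
    · obtain ⟨k, ψ, hcb, hflat⟩ := S.flat x hx
      obtain ⟨Ψ, P, hΨ0, hP, hev⟩ := hloc x hx k ψ hcb hflat
      have h1 : ContinuousAt (fun y => (P (Ψ (ψ y))).re) x := by
        have h2 : ContinuousAt (fun y => Ψ (ψ y)) x :=
          Ψ.continuous.continuousAt.comp (ψ.continuousAt hcb.src)
        have h3 : Ψ (ψ x) = 0 := by rw [hcb.zero, hΨ0]
        have h4 : ContinuousAt P (Ψ (ψ x)) := by rw [h3]; exact hP.self_of_nhds.continuousAt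
        exact Complex.continuous_re.continuousAt.comp
          (ContinuousAt.comp (g := P) (f := fun y => Ψ (ψ y)) h4 h2)
      exact h1.congr (hev.mono fun y hy => hy.symm)
    · obtain ⟨b, w, hb, hxb, hw, hform⟩ := hlocr x hx
      have h1 : ContinuousAt (fun y => (w (tc t (b y))).re - S.u b y) x := by
        apply ContinuousAt.sub
        · have h2 : ContinuousAt (fun y => tc t (b y)) x :=
            (tc_cont t).continuousAt.comp (b.continuousAt hxb)
          have h3 : tc t (b x) ∈ tc t '' B1 := ⟨b x, by rw [← hb.2]; exact b.map_source hxb, rfl⟩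
          have h4 : ContinuousAt w (tc t (b x)) :=
            (hw.differentiableAt (hopen.mem_nhds h3)).continuousAt
          exact Complex.continuous_re.continuousAt.comp
            (ContinuousAt.comp (g := w) (f := fun y => tc t (b y)) h4 h2)
        · have h2 := (S.smooth b hb.1 x hxb).continuousAt
          have h3 : ContinuousAt (((fun y => (S.u b y : ℂ)) ∘ b.symm) ∘ b) x :=
            h2.comp (b.continuousAt hxb)
          have h4 : (((fun y => (S.u b y : ℂ)) ∘ b.symm) ∘ b) =ᶠ[𝓝 x] fun y => (S.u b y : ℂ) := by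
            filter_upwards [b.open_source.mem_nhds hxb] with y hy
            simp only [Function.comp_apply, b.left_inv hy]
          have h5 := h3.congr h4
          have h6 := Complex.continuous_re.continuousAt.comp h5
          exact h6
      apply h1.congr
      filter_upwards [hevreg x hx, b.open_source.mem_nhds hxb] with y h2 h3
      rw [h2, hform y h3]
  · intro p hp k ψ hcb hflat x hx hm
    by_cases hxp : x = p
    · subst hxp
      obtain ⟨Ψ, P, hΨ0, hP, hev⟩ := hloc x hp k ψ hcb hflat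
      have h0 : Ψ (ψ x) = 0 := by rw [hcb.zero, hΨ0]
      have hs0 : Ψ.symm 0 = 0 := by rw [Homeomorph.symm_apply_eq, hΨ0]
      refine max_of_coord (φ := fun y => Ψ (ψ y)) (φi := fun ζ => ψ.symm (Ψ.symm ζ)) (P := P)
        (Ψ.continuous.continuousAt.comp (ψ.continuousAt hx)) ?_ ?_ ?_ ?_ hev hm
      · apply ContinuousAt.comp
        · apply ψ.symm.continuousAt
          simp only [Homeomorph.symm_apply_apply]
          simpa using ψ.map_source hx
        · exact Ψ.symm.continuous.continuousAt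
      · simp only [Homeomorph.symm_apply_apply]
        exact ψ.left_inv hx
      · have h1 : ∀ᶠ ζ in 𝓝 (Ψ (ψ x)), Ψ.symm ζ ∈ ψ.target := by
          apply Ψ.symm.continuous.continuousAt.eventually
          rw [Homeomorph.symm_apply_apply]
          exact ψ.open_target.mem_nhds (ψ.map_source hx)
        filter_upwards [h1] with ζ hζ
        rw [ψ.right_inv hζ, Homeomorph.apply_symm_apply]
      · simp only [h0]; exact hP
    · obtain ⟨hxc, hmod⟩ := hcb.model x hx hxp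
      obtain ⟨b, w, hb, hxb, hw, hform⟩ := hlocr x hxc
      obtain ⟨a, β, ha, hab⟩ := hmod b hb.1 hxb
      have hu : ∀ᶠ y in 𝓝 x, S.u b y = - Real.log |a| := by
        filter_upwards [hab.eventually_nhds, b.open_source.mem_nhds hxb,
          ψ.open_source.mem_nhds hx, isOpen_compl_singleton.mem_nhds hxp] with y h1 h2 h3 h4
        exact hflat y h3 h4 b hb.1 h2 a β ha h1
      have h3 : tc t (b x) ∈ tc t '' B1 := ⟨b x, by rw [← hb.2]; exact b.map_source hxb, rfl⟩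
      refine max_of_coord (φ := fun y => tc t (b y)) (φi := fun ζ => b.symm ((tcH t ht).symm ζ))
        (P := fun ζ => w ζ + (Real.log |a| : ℝ))
        ((tc_cont t).continuousAt.comp (b.continuousAt hxb)) ?_ ?_ ?_ ?_ ?_ hm
      · apply ContinuousAt.comp
        · apply b.symm.continuousAt
          rw [← tcH_apply t ht, Homeomorph.symm_apply_apply]
          simpa using b.map_source hxb
        · exact (tcH t ht).symm.continuous.continuousAt
      · rw [← tcH_apply t ht, Homeomorph.symm_apply_apply]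
        exact b.left_inv hxb
      · have h1 : ∀ᶠ ζ in 𝓝 (tc t (b x)), (tcH t ht).symm ζ ∈ b.target := by
          apply (tcH t ht).symm.continuous.continuousAt.eventually
          rw [← tcH_apply t ht, Homeomorph.symm_apply_apply]
          exact b.open_target.mem_nhds (b.map_source hxb)
        filter_upwards [h1] with ζ hζ
        rw [b.right_inv hζ, ← tcH_apply t ht, Homeomorph.apply_symm_apply]
      · filter_upwards [hopen.mem_nhds h3] with ζ hζ
        exact (hw.differentiableAt (hopen.mem_nhds hζ)).add_const _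
      · filter_upwards [hevreg x hxc, b.open_source.mem_nhds hxb, hu] with y h4 h5 h6
        rw [h4, hform y h5, h6, Complex.add_re, Complex.ofReal_re]
        ring

end Pool.Agent.Helper61.DilExt
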