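import Pool.Agent.Helper73.Dil.Pure

open Topology Set Filter MeasureTheory Metric

namespace Pool.Agent.Helper61.DilTau

open Pool.Agent.Helper73.Dil

lemma det_eq (g : G) : g.1 0 0 * g.1 1 1 - g.1 0 1 * g.1 1 0 = 1 := by
  have := g.2; rw [Matrix.det_fin_two] at this; exact this

/-- the denominator of `tau` -/
noncomputable def den (g : G) : ℂ := (g.1 0 0 : ℂ) + Complex.I * g.1 1 0

/-- the numerator of `tau` -/
noncomputable def num (g : G) : ℂ := (g.1 0 1 : ℂ) + Complex.I * g.1 1 1

lemma tau_eq (g : G) : tau g = num g / den g := rfl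

lemma normSq_den (g : G) : Complex.normSq (den g) = g.1 0 0 ^ 2 + g.1 1 0 ^ 2 := by
  simp [den, Complex.normSq_apply]; ring

lemma den_ne (g : G) : den g ≠ 0 := by
  intro h
  have h1 := normSq_den g
  rw [h, map_zero] at h1
  have h2 : g.1 0 0 = 0 := by nlinarith [sq_nonneg (g.1 0 0), sq_nonneg (g.1 1 0)]
  have h3 : g.1 1 0 = 0 := by nlinarith [sq_nonneg (g.1 0 0), sq_nonneg (g.1 1 0)]
  have := det_eq g
  rw [h2, h3] at this
  simp at this

lemma tau_im (g : G) : (tau g).im = 1 / Complex.normSq (den g) := by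
  have hd := det_eq g
  have hn : Complex.normSq (den g) ≠ 0 := fun h => den_ne g (Complex.normSq_eq_zero.mp h)
  rw [tau_eq, Complex.div_im]
  have e1 : (den g).re = g.1 0 0 := by simp [den]
  have e2 : (den g).im = g.1 1 0 := by simp [den]
  have e3 : (num g).re = g.1 0 1 := by simp [num]
  have e4 : (num g).im = g.1 1 1 := by simp [num]
  rw [e1, e2, e3, e4]
  field_simp
  linear_combination hd

lemma tau_mem (g : G) : tau g ∈ UH := by
  change 0 < (tau g).im
  rw [tau_im]
  have : 0 < Complex.normSq (den g) := Complex.normSq_pos.mpr (den_ne g)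
  positivity

lemma cont_entry (i j : Fin 2) : Continuous fun g : G => g.1 i j :=
  (continuous_apply j).comp ((continuous_apply i).comp continuous_subtype_val)

lemma continuous_den : Continuous den := by
  unfold den
  exact (Complex.continuous_ofReal.comp (cont_entry 0 0)).add
    (continuous_const.mul (Complex.continuous_ofReal.comp (cont_entry 1 0)))

lemma continuous_num : Continuous num := by
  unfold num
  exact (Complex.continuous_ofReal.comp (cont_entry 0 1)).add
    (continuous_const.mul (Complex.continuous_ofReal.comp (cont_entry 1 1)))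

lemma continuous_tau : Continuous tau :=
  continuous_num.div continuous_den den_ne

lemma me (a b : G) (i j : Fin 2) : (a * b).1 i j = a.1 i 0 * b.1 0 j + a.1 i 1 * b.1 1 j := by
  rw [Matrix.SpecialLinearGroup.coe_mul, Matrix.mul_apply, Fin.sum_univ_two]

lemma rot00 (θ : ℝ) : (rot θ).1 0 0 = Real.cos θ := rfl
lemma rot01 (θ : ℝ) : (rot θ).1 0 1 = -Real.sin θ := rfl
lemma rot10 (θ : ℝ) : (rot θ).1 1 0 = Real.sin θ := rfl
lemma rot11 (θ : ℝ) : (rot θ).1 1 1 = Real.cos θ := rfl
lemma dia00 (r : ℝ) : (dia r).1 0 0 = Real.exp (r / 2) := rfl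
lemma dia01 (r : ℝ) : (dia r).1 0 1 = 0 := rfl
lemma dia10 (r : ℝ) : (dia r).1 1 0 = 0 := rfl
lemma dia11 (r : ℝ) : (dia r).1 1 1 = Real.exp (-(r / 2)) := rfl

lemma exp_re (θ : ℝ) : (Complex.exp (θ * Complex.I)).re = Real.cos θ := Complex.exp_ofReal_mul_I_re θ
lemma exp_im (θ : ℝ) : (Complex.exp (θ * Complex.I)).im = Real.sin θ := Complex.exp_ofReal_mul_I_im θ

lemma den_re (g : G) : (den g).re = g.1 0 0 := by simp [den]
lemma den_im (g : G) : (den g).im = g.1 1 0 := by simp [den]
lemma num_re (g : G) : (num g).re = g.1 0 1 := by simp [num]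
lemma num_im (g : G) : (num g).im = g.1 1 1 := by simp [num]

lemma den_rot (θ : ℝ) (g : G) : den (rot θ * g) = Complex.exp (θ * Complex.I) * den g := by
  apply Complex.ext
  · rw [Complex.mul_re, den_re, den_re, den_im, exp_re, exp_im, me, rot00, rot01]; ring
  · rw [Complex.mul_im, den_re, den_im, den_im, exp_re, exp_im, me, rot10, rot11]; ring

lemma num_rot (θ : ℝ) (g : G) : num (rot θ * g) = Complex.exp (θ * Complex.I) * num g := by
  apply Complex.ext
  · rw [Complex.mul_re, num_re, num_re, num_im, exp_re, exp_im, me, rot00, rot01]; ring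
  · rw [Complex.mul_im, num_re, num_im, num_im, exp_re, exp_im, me, rot10, rot11]; ring

lemma tau_rot (θ : ℝ) (g : G) : tau (rot θ * g) = tau g := by
  rw [tau_eq, tau_eq, den_rot, num_rot, mul_div_mul_left _ _ (Complex.exp_ne_zero _)]

lemma den_dia (r : ℝ) (g : G) : den (dia r * g) =
    ((Real.cosh (r / 2) : ℝ) : ℂ) * den g + ((Real.sinh (r / 2) : ℝ) : ℂ) * (starRingEnd ℂ) (den g) := by
  rw [Real.cosh_eq, Real.sinh_eq]
  apply Complex.ext
  · rw [Complex.add_re, Complex.re_ofReal_mul, Complex.re_ofReal_mul, Complex.conj_re, den_re,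
      den_re, me, dia00, dia01]
    ring
  · rw [Complex.add_im, Complex.im_ofReal_mul, Complex.im_ofReal_mul, Complex.conj_im, den_im,
      den_im, me, dia10, dia11]
    ring

lemma num_dia (r : ℝ) (g : G) : num (dia r * g) =
    ((Real.cosh (r / 2) : ℝ) : ℂ) * num g + ((Real.sinh (r / 2) : ℝ) : ℂ) * (starRingEnd ℂ) (num g) := by
  rw [Real.cosh_eq, Real.sinh_eq]
  apply Complex.ext
  · rw [Complex.add_re, Complex.re_ofReal_mul, Complex.re_ofReal_mul, Complex.conj_re, num_re,
      num_re, me, dia00, dia01]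
    ring
  · rw [Complex.add_im, Complex.im_ofReal_mul, Complex.im_ofReal_mul, Complex.conj_im, num_im,
      num_im, me, dia10, dia11]
    ring

/-- the Moebius parametrisation -/
noncomputable def mob (g : G) (q : ℂ) : ℂ :=
  (num g + q * (starRingEnd ℂ) (num g)) / (den g + q * (starRingEnd ℂ) (den g))

lemma mob_den_ne (g : G) {q : ℂ} (hq : ‖q‖ < 1) : den g + q * (starRingEnd ℂ) (den g) ≠ 0 := by
  intro h
  have h1 : ‖den g‖ = ‖q * (starRingEnd ℂ) (den g)‖ := by
    have := congrArg norm (eq_neg_of_add_eq_zero_left h)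
    rwa [norm_neg] at this
  rw [norm_mul, Complex.norm_conj] at h1
  have h2 : 0 < ‖den g‖ := norm_pos_iff.mpr (den_ne g)
  nlinarith

lemma mob_mem (g : G) {q : ℂ} (hq : ‖q‖ < 1) : mob g q ∈ UH := by
  change 0 < (mob g q).im
  have hD := mob_den_ne g hq
  have hn : 0 < Complex.normSq (den g + q * (starRingEnd ℂ) (den g)) := Complex.normSq_pos.mpr hD
  have hq2 : q.re ^ 2 + q.im ^ 2 < 1 := by
    have : ‖q‖ ^ 2 = q.re ^ 2 + q.im ^ 2 := by
      rw [← Complex.normSq_eq_norm_sq, Complex.normSq_apply]; ring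
    rw [← this]
    have := norm_nonneg q
    nlinarith
  have hd := det_eq g
  have key : (mob g q).im * Complex.normSq (den g + q * (starRingEnd ℂ) (den g)) =
      1 - (q.re ^ 2 + q.im ^ 2) := by
    unfold mob
    rw [Complex.div_im]
    have hn' := hn.ne'
    field_simp
    simp only [Complex.add_re, Complex.add_im, Complex.mul_re, Complex.mul_im, Complex.conj_re,
      Complex.conj_im, den_re, den_im, num_re, num_im]
    linear_combination (1 - (q.re ^ 2 + q.im ^ 2)) * hd
  have : 0 < (mob g q).im * Complex.normSq (den g + q * (starRingEnd ℂ) (den g)) := by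
    rw [key]; linarith
  exact (pos_iff_pos_of_mul_pos this).mpr hn

lemma mob_diff (g : G) : DifferentiableOn ℂ (mob g) (ball 0 1) := by
  unfold mob
  apply DifferentiableOn.div
  · fun_prop
  · fun_prop
  · intro q hq
    exact mob_den_ne g (by simpa using hq)

lemma mob_zero (g : G) : mob g 0 = tau g := by simp [mob, tau_eq]

lemma tanh_lt (x : ℝ) (hx : 0 ≤ x) : 0 ≤ Real.sinh x / Real.cosh x ∧ Real.sinh x / Real.cosh x < 1 := by
  have h1 := Real.cosh_pos x
  have h2 : 0 ≤ Real.sinh x := Real.sinh_nonneg_iff.mpr hx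
  refine ⟨by positivity, ?_⟩
  rw [div_lt_one h1]
  exact Real.sinh_lt_cosh x

lemma tau_dia_rot (r θ : ℝ) (g : G) : tau (dia r * rot θ * g) =
    mob g (circleMap 0 (Real.sinh (r / 2) / Real.cosh (r / 2)) (-2 * θ)) := by
  rw [mul_assoc, tau_eq, den_dia, num_dia, den_rot, num_rot]
  unfold mob circleMap
  rw [zero_add]
  have hc : ((Real.cosh (r / 2) : ℝ) : ℂ) ≠ 0 := by exact_mod_cast (Real.cosh_pos _).ne'
  have hc' : Complex.cosh (↑r / 2) ≠ 0 := by
    have := hc; push_cast at this; exact this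
  have he : Complex.exp (θ * Complex.I) ≠ 0 := Complex.exp_ne_zero _
  have e1 : (starRingEnd ℂ) (Complex.exp (θ * Complex.I)) = Complex.exp (θ * Complex.I) *
      Complex.exp (((-2 * θ : ℝ) : ℂ) * Complex.I) := by
    rw [← Complex.exp_conj, ← Complex.exp_add]
    congr 1
    simp only [map_mul, Complex.conj_ofReal, Complex.conj_I]
    push_cast; ring
  rw [← mul_div_mul_left (num g + _) (den g + _) (mul_ne_zero hc he)]
  congr 1
  · rw [map_mul, e1]
    push_cast
    field_simp
  · rw [map_mul, e1]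
    push_cast
    field_simp

theorem st_MEAN : ST_MEAN := by
  intro h hh r g hr
  refine ⟨tau_mem, continuous_tau, tau_rot, ?_⟩
  obtain ⟨hR0, hR1⟩ := tanh_lt (r / 2) (by positivity)
  set R : ℝ := Real.sinh (r / 2) / Real.cosh (r / 2) with hR
  have hmaps : MapsTo (mob g) (ball 0 1) UH := fun q hq => mob_mem g (by simpa using hq)
  have hcomp : DifferentiableOn ℂ (fun q => h (mob g q)) (ball 0 1) := hh.comp (mob_diff g) hmaps
  have hcl : DiffContOnCl ℂ (fun q => h (mob g q)) (ball 0 |R|) := by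
    apply DifferentiableOn.diffContOnCl
    apply hcomp.mono
    rcases eq_or_ne R 0 with h0 | h0
    · rw [h0]; simp
    · rw [closure_ball _ (by positivity)]
      intro q hq
      rw [mem_closedBall, abs_of_nonneg hR0] at hq
      rw [mem_ball]; linarith
  have hav := hcl.circleAverage
  rw [mob_zero] at hav
  rw [← hav, Real.circleAverage_def]
  set f : ℝ → ℂ := fun θ => h (mob g (circleMap 0 R θ)) with hf
  have hfc : Continuous f := by
    have h1 : ContinuousOn (fun q => h (mob g q)) (ball 0 1) := hcomp.continuousOn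
    have h2 : Continuous fun θ : ℝ => circleMap 0 R θ := continuous_circleMap 0 R
    refine h1.comp_continuous h2 ?_
    intro θ
    simp [abs_of_nonneg hR0, hR1]
  have hper : Function.Periodic f (2 * Real.pi) := by
    intro θ
    simp only [hf]
    rw [periodic_circleMap 0 R θ]
  have hint : ∀ t₁ t₂, IntervalIntegrable f volume t₁ t₂ := fun _ _ => hfc.intervalIntegrable _ _
  have e1 : (fun θ : ℝ => h (tau (dia r * rot θ * g))) = fun θ => f (-2 * θ) := by
    funext θ
    rw [tau_dia_rot]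
  have e2 : ∫ θ in (0 : ℝ)..(2 * Real.pi), h (tau (dia r * rot θ * g)) =
      ∫ θ in (0 : ℝ)..(2 * Real.pi), f (-2 * θ) := by rw [e1]
  rw [e2, intervalIntegral.integral_comp_mul_left f (by norm_num : (-2 : ℝ) ≠ 0)]
  have e3 := hper.intervalIntegral_add_zsmul_eq (-2) 0 hint
  have e4 : (-2 : ℝ) * (2 * Real.pi) = 0 + (-2 : ℤ) • (2 * Real.pi) := by
    simp
  rw [mul_zero, e4, e3, zero_add]
  rw [Complex.real_smul, zsmul_eq_mul, Complex.real_smul]
  push_cast
  ring


lemma G_ext {a b : G} (h00 : a.1 0 0 = b.1 0 0) (h01 : a.1 0 1 = b.1 0 1) (h10 : a.1 1 0 = b.1 1 0)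
    (h11 : a.1 1 1 = b.1 1 1) : a = b := by
  apply Subtype.ext
  ext i j
  fin_cases i <;> fin_cases j
  · exact h00
  · exact h01
  · exact h10
  · exact h11

/-- Cartan decomposition -/
lemma cartan (M : G) : ∃ (r θ θ' : ℝ), 0 ≤ r ∧ M = rot θ' * dia r * rot θ := by
  set a : ℂ := ⟨(M.1 0 0 + M.1 1 1) / 2, (M.1 1 0 - M.1 0 1) / 2⟩ with ha
  set b : ℂ := ⟨(M.1 0 0 - M.1 1 1) / 2, (M.1 1 0 + M.1 0 1) / 2⟩ with hb
  have hd := det_eq M
  have hab : ‖a‖ ^ 2 - ‖b‖ ^ 2 = 1 := by
    rw [← Complex.normSq_eq_norm_sq, ← Complex.normSq_eq_norm_sq, Complex.normSq_apply,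
      Complex.normSq_apply, ha, hb]
    simp only
    linear_combination hd
  set ρ := Real.arsinh ‖b‖ with hρ
  have hs : Real.sinh ρ = ‖b‖ := Real.sinh_arsinh _
  have hc : Real.cosh ρ = ‖a‖ := by
    have h1 := Real.cosh_sq ρ
    rw [hs] at h1
    have h2 : Real.cosh ρ ^ 2 = ‖a‖ ^ 2 := by rw [h1]; linarith
    exact (sq_eq_sq₀ (Real.cosh_pos _).le (norm_nonneg _)).mp h2
  have hρ0 : 0 ≤ ρ := Real.arsinh_nonneg_iff.mpr (norm_nonneg _)
  have e1 : Real.exp ρ = ‖a‖ + ‖b‖ := by rw [← hs, ← hc, Real.cosh_add_sinh]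
  have e2 : Real.exp (-ρ) = ‖a‖ - ‖b‖ := by rw [← hs, ← hc, Real.cosh_sub_sinh]
  have ca : ‖a‖ * Real.cos a.arg = a.re := Complex.norm_mul_cos_arg a
  have sa : ‖a‖ * Real.sin a.arg = a.im := Complex.norm_mul_sin_arg a
  have cb : ‖b‖ * Real.cos b.arg = b.re := Complex.norm_mul_cos_arg b
  have sb : ‖b‖ * Real.sin b.arg = b.im := Complex.norm_mul_sin_arg b
  set θ := (a.arg - b.arg) / 2 with hθ
  set θ' := (a.arg + b.arg) / 2 with hθ'
  have ea : a.arg = θ' + θ := by rw [hθ, hθ']; ring
  have eb : b.arg = θ' - θ := by rw [hθ, hθ']; ring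
  rw [ea, Real.cos_add] at ca
  rw [ea, Real.sin_add] at sa
  rw [eb, Real.cos_sub] at cb
  rw [eb, Real.sin_sub] at sb
  have are : a.re = (M.1 0 0 + M.1 1 1) / 2 := rfl
  have aim : a.im = (M.1 1 0 - M.1 0 1) / 2 := rfl
  have bre : b.re = (M.1 0 0 - M.1 1 1) / 2 := rfl
  have bim : b.im = (M.1 1 0 + M.1 0 1) / 2 := rfl
  rw [are] at ca
  rw [aim] at sa
  rw [bre] at cb
  rw [bim] at sb
  have er : (2 * ρ) / 2 = ρ := by ring
  refine ⟨2 * ρ, θ, θ', by positivity, ?_⟩
  apply G_ext
  · rw [me, me, me, rot00, rot01, rot00, rot10, dia00, dia10, dia01, dia11, er, e1, e2]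
    linear_combination -ca - cb
  · rw [me, me, me, rot00, rot01, rot01, rot11, dia00, dia10, dia01, dia11, er, e1, e2]
    linear_combination sa - sb
  · rw [me, me, me, rot10, rot11, rot00, rot10, dia00, dia10, dia01, dia11, er, e1, e2]
    linear_combination -sa - sb
  · rw [me, me, me, rot10, rot11, rot01, rot11, dia00, dia10, dia01, dia11, er, e1, e2]
    linear_combination cb - ca

theorem st_TRANS : ST_TRANS := by
  constructor
  · intro t ht
    have ht' : 0 < t.im := ht
    have hs : 0 < Real.sqrt t.im := Real.sqrt_pos.mpr ht'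
    have hss : Real.sqrt t.im * Real.sqrt t.im = t.im := Real.mul_self_sqrt ht'.le
    let g : G := ⟨!![1 / Real.sqrt t.im, t.re / Real.sqrt t.im; 0, Real.sqrt t.im], by
      rw [Matrix.det_fin_two_of]; field_simp; ring⟩
    refine ⟨g, ?_⟩
    have hd : den g = ((1 / Real.sqrt t.im : ℝ) : ℂ) := by
      apply Complex.ext
      · rw [den_re]; simp [g]
      · rw [den_im]; simp [g]
    have hn : num g = ((1 / Real.sqrt t.im : ℝ) : ℂ) * t := by
      apply Complex.ext
      · rw [num_re, Complex.re_ofReal_mul]; simp [g]; ring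
      · rw [num_im, Complex.im_ofReal_mul]; simp [g]
        field_simp
        rw [sq]; exact hss
    rw [tau_eq, hd, hn, mul_div_cancel_left₀]
    exact_mod_cast (by positivity : (1 / Real.sqrt t.im : ℝ) ≠ 0)
  · intro g g'
    obtain ⟨r, θ, θ', hr, h⟩ := cartan (g' * g⁻¹)
    refine ⟨r, θ, θ', hr, ?_⟩
    rw [← h, inv_mul_cancel_right]

end Pool.Agent.Helper61.DilTau
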